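import Mathlib

/-! Project DW (MP_8bcfe8_an, helper238): the optimal velocity constant `K(A,c)` of
`u'' + c u' + A u = f` is nonincreasing in the damping `c`.

`G_c` = velocity kernel. Key identity (`helper297`): `∂_c G = -(s/2) G + ∫ N(s,r) G(r) dr`,
`N(s,r) = (1/2) e^{-cs/2} (1 + (cr/2 - 1) e^{cr/2} 1_{r<s}) ≥ 0`, `∫ N(s,r) ds = r/2`, `∫ G = 0`. -/

set_option autoImplicit false

namespace Pool.Agent.X238.DW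

open MeasureTheory Set Filter Topology

/-- kernels: `P'' + c P' + l P = 0`, `P 0 = 0`, `P' 0 = 1`, `G = P'` -/
structure Ker (c l : ℝ) (P G : ℝ → ℝ) : Prop where
  dP : ∀ s, HasDerivAt P (G s) s
  dG : ∀ s, HasDerivAt G (-(c * G s) - l * P s) s
  P0 : P 0 = 0
  G0 : G 0 = 1

/-- (KER) existence. Proof: with `z : ℂ`, `z ^ 2 = c ^ 2 / 4 - l`: real part of
`e^{-cs/2} sinh (z s) / z` (if `z ≠ 0`), `s e^{-cs/2}` (if `z = 0`). -/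
def S_KER : Prop := ∀ c l : ℝ, ∃ P G : ℝ → ℝ, Ker c l P G

/-- (EXB) decay for the forced equation, uniform in `c`. Proof: `E = R² + l Z² + 2 ε Z R`, with `ε`
small (depending on `c1, c2, l`): `(R² + l Z²)/2 ≤ E ≤ (3/2) (R² + l Z²)` and
`E' ≤ -(ε/3) E + C g²`; take `γ0 = ε/3`; then `(e^{γ s} E)' ≤ C m² e^{-γ s}`. -/
def S_EXB : Prop := ∀ c1 c2 l : ℝ, 0 < c1 → c1 ≤ c2 → 0 < l → ∃ γ0 : ℝ, 0 < γ0 ∧ ∀ γ : ℝ, 0 < γ →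
  γ ≤ γ0 → ∃ C : ℝ, 0 ≤ C ∧ ∀ c ∈ Icc c1 c2, ∀ (Z R g : ℝ → ℝ) (m : ℝ), 0 ≤ m →
  (∀ s : ℝ, 0 ≤ s → HasDerivAt Z (R s) s) →
  (∀ s : ℝ, 0 ≤ s → HasDerivAt R (-(c * R s) - l * Z s + g s) s) →
  (∀ s : ℝ, 0 ≤ s → |g s| ≤ m * Real.exp (-(γ * s))) →
  ∀ s : ℝ, 0 ≤ s → |Z s| ≤ C * (|Z 0| + |R 0| + m) * Real.exp (-(γ / 2 * s)) ∧
    |R s| ≤ C * (|Z 0| + |R 0| + m) * Real.exp (-(γ / 2 * s))

/-- the derivative of `G` with respect to `c` -/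
noncomputable def YY {E : Type*} [NormedAddCommGroup E] [NormedSpace ℝ E] (c : ℝ) (G : ℝ → E)
    (s : ℝ) : E :=
  (-(s / 2)) • G s + (Real.exp (-(c * s / 2)) / 2) •
    ∫ r in (0 : ℝ)..s, ((c * r / 2 - 1) * Real.exp (c * r / 2)) • G r

/-- (YID) `Y = YY c G` and `X = -(s/2) P + (c/4) e^{-cs/2} J`, `J = ∫_0^s r e^{cr/2} P(r) dr`. Proof:
`∫_0^s (cr/2-1) e^{cr/2} G = (cs/2-1) e^{cs/2} P - (c²/4) J` (derivatives), so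
`Y = -P/2 - (s/2) G - (c²/8) e^{-cs/2} J + (c/4) s P = X'`; the second equation reduces to
`(l - c²/4) J = e^{cs/2} (P - s G - (c/2) s P)` (same derivative, zero at zero). -/
def S_YID : Prop := ∀ (c l : ℝ) (P G : ℝ → ℝ), Ker c l P G → ∃ X : ℝ → ℝ, X 0 = 0 ∧
  (∀ s, HasDerivAt X (YY c G s) s) ∧
  (∀ s, HasDerivAt (YY c G) (-(c * YY c G s) - l * X s - G s) s)

/-- (ST1) from EXB (for `(P,G)`, then `(X,Y)`, then `Z = P' - P - h X`, `R = G' - G - h Y` which has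
`R' = -(c+h) R - l Z - h² Y`) and YID. `∫ G = lim P = 0`. -/
def S_ST1 : Prop := S_EXB → S_YID → ∀ c1 c2 l : ℝ, 0 < c1 → c1 ≤ c2 → 0 < l →
  ∃ γ C : ℝ, 0 < γ ∧ 0 ≤ C ∧ ∀ c h : ℝ, c1 ≤ c → 0 ≤ h → c + h ≤ c2 → ∀ P G P' G' : ℝ → ℝ,
  Ker c l P G → Ker (c + h) l P' G' →
  (∫ s in Ioi (0 : ℝ), G s = 0) ∧ ∀ s : ℝ, 0 ≤ s →
    |P s| ≤ C * Real.exp (-(γ * s)) ∧ |G s| ≤ C * Real.exp (-(γ * s)) ∧
    |G' s - G s - h * YY c G s| ≤ C * h ^ 2 * Real.exp (-(γ * s))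

/-- (ST2) one step. Proof: `Y s = -(s/2) g s + ∫ N(s,r) g(r) dr` since `∫ g = 0`,
`N ≥ 0` as `1 + (x-1) e^x ≥ 0` for `x ≥ 0`, so
`‖g' s‖ ≤ |1 - h s/2| ‖g s‖ + h ∫ N(s,r) ‖g r‖ dr + C h² e^{-γ s}`, `|1 - x| ≤ 1 - x + x²/2`, Tonelli and
`∫ N(s,r) ds = r/2`. -/
def S_ST2 : Prop := ∀ (n : ℕ) (γ C : ℝ), 0 < γ → 0 ≤ C → ∃ C' : ℝ, ∀ (c h : ℝ), 0 < c → 0 ≤ h →
  ∀ g g' : ℝ → EuclideanSpace ℝ (Fin n), Continuous g → Continuous g' →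
  (∫ s in Ioi (0 : ℝ), g s = 0) → (∀ s : ℝ, 0 ≤ s → ‖g s‖ ≤ C * Real.exp (-(γ * s))) →
  (∀ s : ℝ, 0 ≤ s → ‖g' s - g s - h • YY c g s‖ ≤ C * h ^ 2 * Real.exp (-(γ * s))) →
  ∫ s in Ioi (0 : ℝ), ‖g' s‖ ≤ (∫ s in Ioi (0 : ℝ), ‖g s‖) + C' * h ^ 2

/-- (TEL) telescoping -/
def S_TEL : Prop := ∀ (Φ : ℝ → ℝ) (c1 c2 C : ℝ), c1 ≤ c2 →
  (∀ c h : ℝ, c1 ≤ c → 0 ≤ h → c + h ≤ c2 → Φ (c + h) ≤ Φ c + C * h ^ 2) → Φ c2 ≤ Φ c1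

/-- exponential decay of the kernels -/
def Dec (P G : ℝ → ℝ) : Prop := ∃ γ C : ℝ, 0 < γ ∧ ∀ s : ℝ, 0 ≤ s →
  |P s| ≤ C * Real.exp (-(γ * s)) ∧ |G s| ≤ C * Real.exp (-(γ * s))

/-- (REP) bounded solutions on `ℝ` are given by the kernel. Proof: for `a < 0` put
`w° t = P-, G-combination of (u a, w a) + ∫_a^t G(t-τ) f τ`, it solves the same integral equations
(Fubini), so `w 0 = w° 0` by uniqueness (Grönwall); let `a → -∞`. Or: `F t = ∫_a^t f`, `w - F` is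
differentiable, and integrate by parts. -/
def S_REP : Prop := ∀ (c l : ℝ) (P G : ℝ → ℝ), Ker c l P G → Dec P G →
  ∀ (f u w : ℝ → ℝ) (M : ℝ), AEStronglyMeasurable f volume → (∀ᵐ t, |f t| ≤ M) →
  Continuous u → Continuous w → (∀ t, |u t| ≤ M) → (∀ t, |w t| ≤ M) →
  (∀ s t : ℝ, u t - u s = ∫ τ in s..t, w τ) →
  (∀ s t : ℝ, w t - w s = ∫ τ in s..t, (f τ - c * w τ - l * u τ)) →
  w 0 = ∫ s in Ioi (0 : ℝ), G s * f (-s)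

/-- (EXI) the bounded solution for continuous compactly supported `f`. Proof: with the fundamental matrix
(entries: combinations of `P`, `G`; addition formulas by uniqueness) `U t = e^{tM} ∫_{-T}^t e^{-τM} (0, f τ)`,
or convolution with the kernel. -/
def S_EXI : Prop := ∀ (c l : ℝ) (P G : ℝ → ℝ), Ker c l P G → Dec P G →
  ∀ (f : ℝ → ℝ) (T : ℝ), Continuous f → (∀ t, T ≤ |t| → f t = 0) →
  ∃ u w : ℝ → ℝ, ∃ M : ℝ, (∀ t, HasDerivAt u (w t) t) ∧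
    (∀ t, HasDerivAt w (f t - c * w t - l * u t) t) ∧ (∀ t, |u t| ≤ M ∧ |w t| ≤ M) ∧
    w 0 = ∫ s in Ioi (0 : ℝ), G s * f (-s)

/-- a cut-off function -/
noncomputable def cut (n : ℕ) (t : ℝ) : ℝ := max 0 (min 1 (n + 1 - |t|))

/-- (LIX) dominated convergence -/
def S_LIX : Prop := ∀ (d : ℕ) (g : ℝ → EuclideanSpace ℝ (Fin d)) (γ C B : ℝ), 0 < γ → Continuous g →
  (∀ s : ℝ, 0 ≤ s → ‖g s‖ ≤ C * Real.exp (-(γ * s))) →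
  (∀ n : ℕ, ∫ s in Ioi (0 : ℝ), cut n (-s) * (‖g s‖ ^ 2 / (‖g s‖ + 1 / (n + 1))) ≤ B) →
  ∫ s in Ioi (0 : ℝ), ‖g s‖ ≤ B

end Pool.Agent.X238.DW
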