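import Pool.Agent.X238.DW.Stm

/-! Project DW, second stage: the same parts for bounded operators `A` on a real Hilbert space `V`
(this covers all self-adjoint operators, by spectral truncation). -/

set_option autoImplicit false

namespace Pool.Agent.X238.DW

open MeasureTheory Set Filter Topology

universe v

/-- `A` is symmetric and `≥ b` -/
structure Coer {V : Type v} [NormedAddCommGroup V] [InnerProductSpace ℝ V] (b : ℝ)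
    (A : V →L[ℝ] V) : Prop where
  symm : ∀ x y : V, inner ℝ (A x) y = inner ℝ x (A y)
  coer : ∀ x : V, b * ‖x‖ ^ 2 ≤ inner ℝ (A x) x

/-- `p'' + c p' + A p = 0`, `p 0 = 0`, `p' 0 = x`, `g = p'` -/
structure KerV {V : Type v} [NormedAddCommGroup V] [InnerProductSpace ℝ V] (c : ℝ) (A : V →L[ℝ] V)
    (x : V) (p g : ℝ → V) : Prop where
  dP : ∀ s, HasDerivAt p (g s) s
  dG : ∀ s, HasDerivAt g (-(c • g s) - A (p s)) s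
  P0 : p 0 = 0
  G0 : g 0 = x

/-- (KER2) existence: exponential of the operator `(p,g) ↦ (g, -c g - A p)` of `V × V`
(`hasDerivAt_exp_smul_const`) -/
def S_KER2 : Prop := ∀ (V : Type v) [NormedAddCommGroup V] [InnerProductSpace ℝ V] [CompleteSpace V]
  (c : ℝ) (A : V →L[ℝ] V) (x : V), ∃ p g : ℝ → V, KerV c A x p g

/-- (EXB2) as EXB: `E = ‖R‖² + ⟪A Z, Z⟫ + 2 ε ⟪Z, R⟫`, `|2 ε c ⟪Z,R⟫| ≤ ε (⟪A Z,Z⟫ + c² ‖R‖² / b)`,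
`E ≥ (‖R‖² + b ‖Z‖²)/2`; `E 0 = ‖R 0‖²`. -/
def S_EXB2 : Prop := ∀ c1 c2 b : ℝ, 0 < c1 → c1 ≤ c2 → 0 < b → ∃ γ0 : ℝ, 0 < γ0 ∧ ∀ γ : ℝ, 0 < γ →
  γ ≤ γ0 → ∃ C : ℝ, 0 ≤ C ∧ ∀ (V : Type v) [NormedAddCommGroup V] [InnerProductSpace ℝ V]
  [CompleteSpace V] (A : V →L[ℝ] V), Coer b A → ∀ c ∈ Icc c1 c2, ∀ (Z R g : ℝ → V) (m : ℝ), 0 ≤ m →
  (∀ s : ℝ, 0 ≤ s → HasDerivAt Z (R s) s) →
  (∀ s : ℝ, 0 ≤ s → HasDerivAt R (-(c • R s) - A (Z s) + g s) s) → Z 0 = 0 →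
  (∀ s : ℝ, 0 ≤ s → ‖g s‖ ≤ m * Real.exp (-(γ * s))) →
  ∀ s : ℝ, 0 ≤ s → ‖Z s‖ ≤ C * (‖R 0‖ + m) * Real.exp (-(γ / 2 * s)) ∧
    ‖R s‖ ≤ C * (‖R 0‖ + m) * Real.exp (-(γ / 2 * s))

/-- (YID2) as YID, with `A` in the place of `l` -/
def S_YID2 : Prop := ∀ (V : Type v) [NormedAddCommGroup V] [InnerProductSpace ℝ V] [CompleteSpace V]
  (c : ℝ) (A : V →L[ℝ] V) (x : V) (p g : ℝ → V), KerV c A x p g → ∃ X : ℝ → V, X 0 = 0 ∧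
  (∀ s, HasDerivAt X (YY c g s) s) ∧
  (∀ s, HasDerivAt (YY c g) (-(c • YY c g s) - A (X s) - g s) s)

/-- (ST12) as ST1 -/
def S_ST12 : Prop := S_EXB2.{v} → S_YID2.{v} → ∀ c1 c2 b : ℝ, 0 < c1 → c1 ≤ c2 → 0 < b →
  ∀ (V : Type v) [NormedAddCommGroup V] [InnerProductSpace ℝ V] [CompleteSpace V]
  (A : V →L[ℝ] V), Coer b A → ∀ x : V,
  ∃ γ C : ℝ, 0 < γ ∧ 0 ≤ C ∧ ∀ c h : ℝ, c1 ≤ c → 0 ≤ h → c + h ≤ c2 → ∀ p g p' g' : ℝ → V,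
  KerV c A x p g → KerV (c + h) A x p' g' →
  (∫ s in Ioi (0 : ℝ), g s = 0) ∧ ∀ s : ℝ, 0 ≤ s →
    ‖p s‖ ≤ C * Real.exp (-(γ * s)) ∧ ‖g s‖ ≤ C * Real.exp (-(γ * s)) ∧
    ‖g' s - g s - h • YY c g s‖ ≤ C * h ^ 2 * Real.exp (-(γ * s))

/-- (ST22) as ST2, for any Hilbert space -/
def S_ST22 : Prop := ∀ (V : Type v) [NormedAddCommGroup V] [InnerProductSpace ℝ V] [CompleteSpace V]
  (γ C : ℝ), 0 < γ → 0 ≤ C → ∃ C' : ℝ, ∀ (c h : ℝ), 0 < c → 0 ≤ h →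
  ∀ g g' : ℝ → V, Continuous g → Continuous g' →
  (∫ s in Ioi (0 : ℝ), g s = 0) → (∀ s : ℝ, 0 ≤ s → ‖g s‖ ≤ C * Real.exp (-(γ * s))) →
  (∀ s : ℝ, 0 ≤ s → ‖g' s - g s - h • YY c g s‖ ≤ C * h ^ 2 * Real.exp (-(γ * s))) →
  ∫ s in Ioi (0 : ℝ), ‖g' s‖ ≤ (∫ s in Ioi (0 : ℝ), ‖g s‖) + C' * h ^ 2

/-- exponential decay -/
def DecV {V : Type v} [NormedAddCommGroup V] (p g : ℝ → V) : Prop :=
  ∃ γ C : ℝ, 0 < γ ∧ ∀ s : ℝ, 0 ≤ s →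
    ‖p s‖ ≤ C * Real.exp (-(γ * s)) ∧ ‖g s‖ ≤ C * Real.exp (-(γ * s))

/-- (REP2) bounded solutions on `ℝ`: test with `g (-τ)`, `p (-τ)`:
`d/dτ (⟪w, g(-τ)⟫ - ⟪u, A p(-τ)⟫) = ⟪f, g(-τ)⟫`. (With `F t = ∫_0^t f`: `w - F` is differentiable,
`u' = w`, `(w - F)' = -c w - A u`; and `∫ ⟪F, q'⟫ = [⟪F, q⟫] - ∫ ⟪f, q⟫` for `q ∈ C¹`.) -/
def S_REP2 : Prop := ∀ (V : Type v) [NormedAddCommGroup V] [InnerProductSpace ℝ V] [CompleteSpace V]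
  (c b : ℝ) (A : V →L[ℝ] V), 0 < b → Coer b A → ∀ (x : V) (p g : ℝ → V), KerV c A x p g → DecV p g →
  ∀ (f u w : ℝ → V) (M : ℝ), AEStronglyMeasurable f volume → (∀ᵐ t, ‖f t‖ ≤ M) →
  Continuous u → Continuous w → (∀ t, ‖u t‖ ≤ M) → (∀ t, ‖w t‖ ≤ M) →
  (∀ s t : ℝ, u t - u s = ∫ τ in s..t, w τ) →
  (∀ s t : ℝ, w t - w s = ∫ τ in s..t, (f τ - c • w τ - A (u τ))) →
  inner ℝ (w 0) x = ∫ s in Ioi (0 : ℝ), inner ℝ (f (-s)) (g s)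

/-- (EXI2) the bounded solution for continuous compactly supported `f`: with the group `e^{tM}` of
`V × V`, `U t = e^{tM} ∫_{-T}^t e^{-τM} (0, f τ) dτ`; bounded for `t ≥ T` by the decay (EXB2), zero for
`t ≤ -T`. (The formula for `w 0` follows from REP2.) -/
def S_EXI2 : Prop := S_EXB2.{v} → ∀ (V : Type v) [NormedAddCommGroup V] [InnerProductSpace ℝ V]
  [CompleteSpace V] (c b : ℝ) (A : V →L[ℝ] V), 0 < c → 0 < b → Coer b A →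
  ∀ (f : ℝ → V) (T : ℝ), Continuous f → (∀ t, T ≤ |t| → f t = 0) →
  ∃ u w : ℝ → V, ∃ M : ℝ, (∀ t, HasDerivAt u (w t) t) ∧
    (∀ t, HasDerivAt w (f t - c • w t - A (u t)) t) ∧ (∀ t, ‖u t‖ ≤ M ∧ ‖w t‖ ≤ M)

/-- (LIX2) dominated convergence -/
def S_LIX2 : Prop := ∀ (V : Type v) [NormedAddCommGroup V] [InnerProductSpace ℝ V] [CompleteSpace V]
  (g : ℝ → V) (γ C B : ℝ), 0 < γ → Continuous g →
  (∀ s : ℝ, 0 ≤ s → ‖g s‖ ≤ C * Real.exp (-(γ * s))) →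
  (∀ n : ℕ, ∫ s in Ioi (0 : ℝ), cut n (-s) * (‖g s‖ ^ 2 / (‖g s‖ + 1 / (n + 1))) ≤ B) →
  ∫ s in Ioi (0 : ℝ), ‖g s‖ ≤ B

end Pool.Agent.X238.DW
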