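import Pool.Agent.X238.DW.G2
import Pool.Agent.X292.DW.Ker2
import Pool.Agent.X245.DW.EXB2
import Pool.Agent.X283.DW.Yid2
import Pool.Agent.X192.DW.St12
import Pool.Agent.X168.DW.ST22
import Pool.Agent.X168.DW.Tel
import Pool.Agent.X131.DW.REP2

/-! Project DW, third stage: all self-adjoint operators, without the spectral theorem, by the Yosida
approximations `B = (T + ε)⁻¹`, `T = A⁻¹`. -/

set_option autoImplicit false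

namespace Pool.Agent.X238.DW

open MeasureTheory Set Filter Topology
open Pool.Agent.Results.MP_8bcfe8_an.VelocityConstantMonotone (IsSol Adm)

universe v

/-- `T = A⁻¹` -/
structure Inv {H : Type v} [NormedAddCommGroup H] [InnerProductSpace ℝ H] (A : H →ₗ.[ℝ] H) (b : ℝ)
    (T : H →L[ℝ] H) : Prop where
  mem : ∀ x, T x ∈ A.domain
  right : ∀ (x : H) (h : T x ∈ A.domain), A ⟨T x, h⟩ = x
  left : ∀ v : A.domain, T (A v) = (v : H)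
  symm : ∀ x y : H, inner ℝ (T x) y = inner ℝ x (T y)
  pos : ∀ x : H, b * ‖T x‖ ^ 2 ≤ inner ℝ (T x) x
  dense : DenseRange T

/-- (SA) the inverse of a self-adjoint coercive operator. Proof: `A` is injective with closed range
(`A† = A` is closed, `b ‖x‖ ≤ ‖A x‖`) and `range⊥ ⊆ ker A† = ker A = 0`; the range of `T` is the domain. -/
def S_SA : Prop := ∀ (H : Type v) [NormedAddCommGroup H] [InnerProductSpace ℝ H] [CompleteSpace H]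
  (A : H →ₗ.[ℝ] H) (b : ℝ), 0 < b → Dense (A.domain : Set H) → A.adjoint = A →
  (∀ x : A.domain, b * ‖(x : H)‖ ^ 2 ≤ inner ℝ (A x) (x : H)) → ∃ T : H →L[ℝ] H, Inv A b T

/-- `B = (T + ε)⁻¹` -/
structure Yos {H : Type v} [NormedAddCommGroup H] [InnerProductSpace ℝ H] (T : H →L[ℝ] H)
    (b' ε : ℝ) (B : H →L[ℝ] H) : Prop where
  left : ∀ x, B (T x) + ε • B x = x
  comm : ∀ x, B (T x) = T (B x)
  coer : Coer b' B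
  contr : ∀ x, ‖B (T x)‖ ≤ ‖x‖

/-- (YOS) Proof: `T + ε ≥ ε` is invertible (Lax-Milgram); with `x = (T + ε) y`:
`⟪B x, x⟫ = ⟪y, T y⟫ + ε ‖y‖²` and `‖x‖² ≤ 2 ‖T y‖² + 2 ε² ‖y‖² ≤ (2/b + 2) ⟪B x, x⟫`;
`‖T y‖ ≤ ‖(T + ε) y‖` as `⟪T y, y⟫ ≥ 0`. -/
def S_YOS : Prop := ∀ (H : Type v) [NormedAddCommGroup H] [InnerProductSpace ℝ H] [CompleteSpace H]
  (T : H →L[ℝ] H) (b : ℝ), 0 < b → (∀ x y : H, inner ℝ (T x) y = inner ℝ x (T y)) →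
  (∀ x : H, b * ‖T x‖ ^ 2 ≤ inner ℝ (T x) x) →
  ∃ b' : ℝ, 0 < b' ∧ ∀ ε : ℝ, 0 < ε → ε ≤ 1 → ∃ B : H →L[ℝ] H, Yos T b' ε B

/-- (EXI3) as EXI2, with a bound uniform in the operator: `u = 0` for `t ≤ -T0`, and EXB2 from `-T0` on
(`‖f s‖ ≤ m e^{2γT0} e^{-γ (s+T0)}`). -/
def S_EXI3 : Prop := ∀ c b T0 : ℝ, 0 < c → 0 < b → 0 ≤ T0 → ∃ C : ℝ, 0 ≤ C ∧
  ∀ (V : Type v) [NormedAddCommGroup V] [InnerProductSpace ℝ V] [CompleteSpace V]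
  (B : V →L[ℝ] V), Coer b B → ∀ (f : ℝ → V) (m : ℝ), Continuous f → (∀ t, T0 ≤ |t| → f t = 0) →
  (∀ t, ‖f t‖ ≤ m) →
  ∃ u w : ℝ → V, (∀ t, HasDerivAt u (w t) t) ∧
    (∀ t, HasDerivAt w (f t - c • w t - B (u t)) t) ∧ (∀ t, ‖u t‖ ≤ C * m ∧ ‖w t‖ ≤ C * m)

/-- a cut-off function: `0` for `t ≥ 0` and `t ≤ -(n+1)`, `1` for `-n ≤ t ≤ -1/(n+1)` -/
noncomputable def cutL (n : ℕ) (t : ℝ) : ℝ := max 0 (min 1 (min (n + 1 + t) (-((n + 1) * t))))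

/-- (CO) -/
def S_CO : Prop := ∀ M γ η : ℝ, 0 < γ → 0 < η → ∃ (n : ℕ) (δ : ℝ), 0 < δ ∧
  ∀ (V : Type v) [NormedAddCommGroup V] (g : ℝ → V), Continuous g →
  (∀ s : ℝ, 0 ≤ s → ‖g s‖ ≤ M * Real.exp (-(γ * s))) →
  ∫ s in Ioi (0 : ℝ), ‖g s‖ ≤ (∫ s in Ioi (0 : ℝ), cutL n (-s) * (‖g s‖ ^ 2 / (‖g s‖ + δ))) + η

/-- (UPP) upper bound. Proof: `û = T² u`, `ŵ = T² w` satisfy `û' = ŵ`,
`ŵ' = (T² f - ε B T u) - c ŵ - B û` (test with `T² v`; `A T² v = T v`; `T u = B û + ε B T u`), so by REP2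
`⟪ŵ 0, y⟫ = ∫ ⟪T² f(-s) - ε B T u(-s), h s⟫ ds`; `‖B T u‖ ≤ ‖u‖ ≤ M`; `∫ ‖h‖ ≤ C ‖y‖` uniformly by EXB2. -/
def S_UPP : Prop := ∀ (H : Type v) [NormedAddCommGroup H] [InnerProductSpace ℝ H] [CompleteSpace H]
  (A : H →ₗ.[ℝ] H) (b : ℝ) (T : H →L[ℝ] H), 0 < b → Inv A b T → ∀ (b' c : ℝ), 0 < b' → 0 < c →
  ∀ (f u w : ℝ → H) (F : ℝ), AEStronglyMeasurable f volume → (∀ᵐ t, ‖f t‖ ≤ F) →
    IsSol A c f u w → ∀ y : H, ∃ C : ℝ, ∀ (ε : ℝ) (B : H →L[ℝ] H), 0 < ε → ε ≤ 1 → Yos T b' ε B →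
    ∀ p h : ℝ → H, KerV c B y p h →
    |inner ℝ (w 0) (T (T y))| ≤ (∫ s in Ioi (0 : ℝ), ‖T (T (h s))‖) * F + C * ε

/-- (LOW) lower bound. Proof: `φ τ = (cutL n τ / (‖T² h(-τ)‖ + δ)) • h (-τ)` (`n, δ` from CO), `(υ, ω)` from
EXI3 for `φ`; `u = T² υ`, `w = T² ω` solve the `A`-equation with forcing `T² φ + ε B T υ`, of norm
`≤ 1 + ε C`; and `⟪w 0, T² y⟫ = ⟪ω 0, T⁴ y⟫ = ∫ ⟪φ(-s), T⁴ h s⟫ = ∫ cutL n (-s) ‖T²h‖²/(‖T²h‖+δ)` by REP2. -/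
def S_LOW : Prop := S_EXI3.{v} → S_CO.{v} → ∀ (H : Type v) [NormedAddCommGroup H]
  [InnerProductSpace ℝ H] [CompleteSpace H]
  (A : H →ₗ.[ℝ] H) (b : ℝ) (T : H →L[ℝ] H), 0 < b → Inv A b T → ∀ (b' c K : ℝ), 0 < b' → 0 < c →
  0 ≤ K → Adm A c K → ∀ (y : H) (η : ℝ), 0 < η → ∃ ε0 : ℝ, 0 < ε0 ∧ ∀ (ε : ℝ) (B : H →L[ℝ] H),
    0 < ε → ε ≤ ε0 → Yos T b' ε B → ∀ p h : ℝ → H, KerV c B y p h →
    ∫ s in Ioi (0 : ℝ), ‖T (T (h s))‖ ≤ K * ‖T (T y)‖ + η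

end Pool.Agent.X238.DW
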