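import Pool.Agent.X238.DW.Stm

set_option autoImplicit false

namespace Pool.Agent.X238.DW

open MeasureTheory Set Filter Topology

/-- chosen kernels -/
noncomputable def kP (h : S_KER) (c l : ℝ) : ℝ → ℝ := (h c l).choose
noncomputable def kG (h : S_KER) (c l : ℝ) : ℝ → ℝ := (h c l).choose_spec.choose
theorem kK (h : S_KER) (c l : ℝ) : Ker c l (kP h c l) (kG h c l) := (h c l).choose_spec.choose_spec

theorem Ker.contG {c l : ℝ} {P G : ℝ → ℝ} (h : Ker c l P G) : Continuous G :=
  continuous_iff_continuousAt.2 fun s => (h.dG s).continuousAt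

/-- the vector of kernels -/
noncomputable def gv (h : S_KER) {n : ℕ} (l a : Fin n → ℝ) (c : ℝ) (s : ℝ) :
    EuclideanSpace ℝ (Fin n) := WithLp.toLp 2 fun j => a j * kG h c (l j) s

theorem gv_cont (h : S_KER) {n : ℕ} (l a : Fin n → ℝ) (c : ℝ) : Continuous (gv h l a c) := by
  unfold gv
  refine (PiLp.continuous_toLp 2 _).comp ?_
  exact continuous_pi fun j => continuous_const.mul (kK h c (l j)).contG

theorem norm_le_of_coord {n : ℕ} (x : EuclideanSpace ℝ (Fin n)) (B : ℝ) (hB : 0 ≤ B)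
    (hx : ∀ j, |x j| ≤ B) : ‖x‖ ≤ n * B := by
  have h1 : x = ∑ j, EuclideanSpace.single j (x j) := by
    ext i
    simp [Finset.sum_apply]
  rw [h1]
  refine (norm_sum_le _ _).trans ?_
  have : ∀ j ∈ (Finset.univ : Finset (Fin n)), ‖EuclideanSpace.single j (x j)‖ ≤ B := by
    intro j _
    rw [EuclideanSpace.norm_single]
    exact hx j
  refine (Finset.sum_le_sum this).trans ?_
  simp

theorem intg {γ C : ℝ} (hγ : 0 < γ) {E : Type*} [NormedAddCommGroup E] {g : ℝ → E}
    (hg : Continuous g) (hb : ∀ s : ℝ, 0 ≤ s → ‖g s‖ ≤ C * Real.exp (-(γ * s))) :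
    IntegrableOn g (Ioi 0) := by
  have h1 : IntegrableOn (fun s : ℝ => C * Real.exp (-(γ * s))) (Ioi 0) := by
    have := (exp_neg_integrableOn_Ioi 0 hγ).const_mul C
    simpa [neg_mul, IntegrableOn] using this
  refine Integrable.mono' h1 hg.aestronglyMeasurable.restrict ?_
  filter_upwards [ae_restrict_mem measurableSet_Ioi] with s hs
  exact hb s (le_of_lt hs)

/-- monotonicity in finite dimension -/
theorem mono (hKER : S_KER) (hEXB : S_EXB) (hYID : S_YID) (hST1 : S_ST1) (hST2 : S_ST2)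
    (hTEL : S_TEL) {n : ℕ} (l a : Fin n → ℝ) (hl : ∀ j, 0 < l j) (c1 c2 : ℝ) (h1 : 0 < c1)
    (h12 : c1 ≤ c2) :
    ∫ s in Ioi (0 : ℝ), ‖gv hKER l a c2 s‖ ≤ ∫ s in Ioi (0 : ℝ), ‖gv hKER l a c1 s‖ := by
  choose γ C hγ hC hh using fun j => hST1 hEXB hYID c1 c2 (l j) h1 h12 (hl j)
  -- uniform constants
  obtain ⟨γ', hγ', hγ1⟩ : ∃ γ' : ℝ, 0 < γ' ∧ ∀ j, γ' ≤ γ j := by
    rcases Nat.eq_zero_or_pos n with rfl | hn
    · exact ⟨1, one_pos, fun j => j.elim0⟩
    · haveI : Nonempty (Fin n) := ⟨⟨0, hn⟩⟩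
      obtain ⟨j0, hj0⟩ := Finite.exists_min γ
      exact ⟨γ j0, hγ j0, hj0⟩
  obtain ⟨B, hB, hB1⟩ : ∃ B : ℝ, 0 ≤ B ∧ ∀ j, |a j| * C j ≤ B := by
    refine ⟨∑ j, |a j| * C j, Finset.sum_nonneg fun j _ => mul_nonneg (abs_nonneg _) (hC j), ?_⟩
    intro j
    exact Finset.single_le_sum (f := fun j => |a j| * C j)
      (fun j _ => mul_nonneg (abs_nonneg _) (hC j)) (Finset.mem_univ j)
  obtain ⟨C', hC'⟩ := hST2 n γ' (n * B) hγ' (by positivity)
  refine hTEL (fun c => ∫ s in Ioi (0 : ℝ), ‖gv hKER l a c s‖) c1 c2 C' h12 ?_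
  intro c h hc hh0 hch
  have hexp : ∀ j, ∀ s : ℝ, 0 ≤ s → Real.exp (-(γ j * s)) ≤ Real.exp (-(γ' * s)) := by
    intro j s hs
    apply Real.exp_le_exp.2
    have := mul_le_mul_of_nonneg_right (hγ1 j) hs
    linarith
  have key := fun j => hh j c h hc hh0 hch (kP hKER c (l j)) (kG hKER c (l j))
    (kP hKER (c + h) (l j)) (kG hKER (c + h) (l j)) (kK hKER c (l j)) (kK hKER (c + h) (l j))
  have hbd : ∀ s : ℝ, 0 ≤ s → ∀ j, |(gv hKER l a c s) j| ≤ B * Real.exp (-(γ' * s)) := by
    intro s hs j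
    have h2 := ((key j).2 s hs).2.1
    show |a j * kG hKER c (l j) s| ≤ _
    rw [abs_mul]
    calc |a j| * |kG hKER c (l j) s| ≤ |a j| * (C j * Real.exp (-(γ j * s))) :=
          mul_le_mul_of_nonneg_left h2 (abs_nonneg _)
      _ = |a j| * C j * Real.exp (-(γ j * s)) := by ring
      _ ≤ B * Real.exp (-(γ' * s)) :=
          mul_le_mul (hB1 j) (hexp j s hs) (Real.exp_pos _).le hB
  have hnb : ∀ s : ℝ, 0 ≤ s → ‖gv hKER l a c s‖ ≤ n * B * Real.exp (-(γ' * s)) := by
    intro s hs
    have := norm_le_of_coord (gv hKER l a c s) (B * Real.exp (-(γ' * s))) (by positivity) (hbd s hs)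
    linarith [this]
  refine hC' c h (lt_of_lt_of_le h1 hc) hh0 (gv hKER l a c) (gv hKER l a (c + h))
    (gv_cont _ _ _ _) (gv_cont _ _ _ _) ?_ hnb ?_
  · -- integral zero
    have hi : IntegrableOn (gv hKER l a c) (Ioi 0) := intg hγ' (gv_cont _ _ _ _) hnb
    ext j
    have h3 : (∫ s in Ioi (0 : ℝ), gv hKER l a c s) j = ∫ s in Ioi (0 : ℝ), (gv hKER l a c s) j := by
      have := ContinuousLinearMap.integral_comp_comm (EuclideanSpace.proj (𝕜 := ℝ) j) hi
      exact this.symm
    rw [h3]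
    show ∫ s in Ioi (0 : ℝ), a j * kG hKER c (l j) s = 0
    rw [integral_const_mul, (key j).1, mul_zero]
  · intro s hs
    have h4 : ∀ j, |(gv hKER l a (c + h) s - gv hKER l a c s - h • YY c (gv hKER l a c) s) j| ≤
        B * h ^ 2 * Real.exp (-(γ' * s)) := by
      intro j
      have h5 : (YY c (gv hKER l a c) s) j = a j * YY c (kG hKER c (l j)) s := by
        unfold YY
        have h6 : IntervalIntegrable (fun r => ((c * r / 2 - 1) * Real.exp (c * r / 2)) •
            gv hKER l a c r) volume 0 s := by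
          apply Continuous.intervalIntegrable
          exact (by fun_prop : Continuous fun r : ℝ => (c * r / 2 - 1) * Real.exp (c * r / 2)).smul
            (gv_cont _ _ _ _)
        have h7 : (∫ r in (0 : ℝ)..s, ((c * r / 2 - 1) * Real.exp (c * r / 2)) •
            gv hKER l a c r) j = ∫ r in (0 : ℝ)..s, a j * (((c * r / 2 - 1) * Real.exp (c * r / 2)) •
              kG hKER c (l j) r) := by
          have := ContinuousLinearMap.intervalIntegral_comp_comm (EuclideanSpace.proj (𝕜 := ℝ) j) h6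
          refine this.symm.trans ?_
          congr 1
          ext r
          show ((c * r / 2 - 1) * Real.exp (c * r / 2)) * (a j * kG hKER c (l j) r) = _
          simp only [smul_eq_mul]
          ring
        show (-(s / 2)) * (a j * kG hKER c (l j) s) + (Real.exp (-(c * s / 2)) / 2) *
          ((∫ r in (0 : ℝ)..s, ((c * r / 2 - 1) * Real.exp (c * r / 2)) • gv hKER l a c r) j) = _
        rw [h7, intervalIntegral.integral_const_mul]
        simp only [smul_eq_mul]
        ring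
      have h8 : (gv hKER l a (c + h) s - gv hKER l a c s - h • YY c (gv hKER l a c) s) j =
          a j * (kG hKER (c + h) (l j) s - kG hKER c (l j) s - h * YY c (kG hKER c (l j)) s) := by
        show a j * kG hKER (c + h) (l j) s - a j * kG hKER c (l j) s -
          h * (YY c (gv hKER l a c) s) j = _
        rw [h5]
        ring
      rw [h8, abs_mul]
      calc |a j| * |kG hKER (c + h) (l j) s - kG hKER c (l j) s - h * YY c (kG hKER c (l j)) s|
          ≤ |a j| * (C j * h ^ 2 * Real.exp (-(γ j * s))) :=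
            mul_le_mul_of_nonneg_left ((key j).2 s hs).2.2 (abs_nonneg _)
        _ = |a j| * C j * (h ^ 2 * Real.exp (-(γ j * s))) := by ring
        _ ≤ B * (h ^ 2 * Real.exp (-(γ' * s))) := by
            refine mul_le_mul (hB1 j) ?_ (by positivity) hB
            exact mul_le_mul_of_nonneg_left (hexp j s hs) (by positivity)
        _ = _ := by ring
    have := norm_le_of_coord _ (B * h ^ 2 * Real.exp (-(γ' * s))) (by positivity) h4
    calc _ ≤ n * (B * h ^ 2 * Real.exp (-(γ' * s))) := this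
      _ = _ := by ring

end Pool.Agent.X238.DW
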