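import Pool.Agent.X238.DW.A

set_option autoImplicit false

namespace Pool.Agent.Results.MP_8bcfe8_an.DampingMonotone

open MeasureTheory Set Filter Topology
open Pool.Agent.X238.DW

universe u v

variable {ι : Type u} {H : Type v} [NormedAddCommGroup H] [InnerProductSpace ℝ H]

/-- `u : ℝ → H` is a solution, on the whole line and bounded in the energy space, of
`u'' + c u' + A u = f`, with velocity `w = u'`, where `A` is the operator with `A (e i) = lam i • e i`
(`e` an orthonormal basis). The equation is required weakly, in every coordinate, in integrated form;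
`U = A^{1/2} u`. -/
structure IsSol (e : HilbertBasis ι ℝ H) (lam : ι → ℝ) (c : ℝ) (f u w : ℝ → H) : Prop where
  cont_w : Continuous w
  energy : ∃ (U : ℝ → H) (M : ℝ), Continuous U ∧
    (∀ i t, inner ℝ (e i) (U t) = Real.sqrt (lam i) * inner ℝ (e i) (u t)) ∧
    ∀ t, ‖U t‖ ≤ M ∧ ‖w t‖ ≤ M
  eq_u : ∀ i, ∀ s t : ℝ, inner ℝ (e i) (u t) - inner ℝ (e i) (u s) =
    ∫ τ in s..t, inner ℝ (e i) (w τ)
  eq_w : ∀ i, ∀ s t : ℝ, inner ℝ (e i) (w t) - inner ℝ (e i) (w s) =
    ∫ τ in s..t, (inner ℝ (e i) (f τ) - c * inner ℝ (e i) (w τ) - lam i * inner ℝ (e i) (u τ))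

/-- `K` is a bound for the velocity: `sup ‖u'‖ ≤ K sup ‖f‖` for all bounded solutions on `ℝ`. -/
def Adm (e : HilbertBasis ι ℝ H) (lam : ι → ℝ) (c K : ℝ) : Prop :=
  ∀ (f u w : ℝ → H) (F : ℝ), AEStronglyMeasurable f volume → (∀ᵐ t, ‖f t‖ ≤ F) →
    IsSol e lam c f u w → ∀ t, ‖w t‖ ≤ K * F

theorem hKG (hKER : S_KER) (hEXB : S_EXB) (hYID : S_YID) (hST1 : S_ST1) (c l : ℝ) (hc : 0 < c)
    (hl : 0 < l) : Dec (kP hKER c l) (kG hKER c l) := by
  obtain ⟨γ, C, hγ, hC, h⟩ := hST1 hEXB hYID c c l hc le_rfl hl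
  refine ⟨γ, C, hγ, fun s hs => ?_⟩
  have hk0 : Ker (c + 0) l (kP hKER c l) (kG hKER c l) := by
    rw [add_zero]; exact kK hKER c l
  have := (h c 0 le_rfl le_rfl (by linarith) _ _ _ _ (kK hKER c l) hk0).2 s hs
  exact ⟨this.1, this.2.1⟩

/-- the combination of basis vectors -/
noncomputable def TT (e : HilbertBasis ι ℝ H) {n : ℕ} (i : Fin n → ι) (x : Fin n → ℝ) : H :=
  ∑ j, x j • e (i j)

theorem TT_inner (e : HilbertBasis ι ℝ H) {n : ℕ} (i : Fin n → ι) (hi : Function.Injective i)
    (x y : Fin n → ℝ) : inner ℝ (TT e i x) (TT e i y) = ∑ j, x j * y j := by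
  have ho : Orthonormal ℝ (fun j => e (i j)) := e.orthonormal.comp i hi
  have := ho.inner_sum x y Finset.univ
  simpa [TT] using this

theorem TT_norm (e : HilbertBasis ι ℝ H) {n : ℕ} (i : Fin n → ι) (hi : Function.Injective i)
    (x : Fin n → ℝ) : ‖TT e i x‖ = ‖(WithLp.toLp 2 x : EuclideanSpace ℝ (Fin n))‖ := by
  have h1 : ‖TT e i x‖ ^ 2 = ‖(WithLp.toLp 2 x : EuclideanSpace ℝ (Fin n))‖ ^ 2 := by
    rw [← real_inner_self_eq_norm_sq, TT_inner e i hi, EuclideanSpace.norm_sq_eq]
    refine Finset.sum_congr rfl fun j _ => ?_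
    simp [sq]
  have h2 := norm_nonneg (TT e i x)
  have h3 := norm_nonneg (WithLp.toLp 2 x : EuclideanSpace ℝ (Fin n))
  exact (pow_left_inj₀ h2 h3 two_ne_zero).1 h1

theorem TT_coord (e : HilbertBasis ι ℝ H) {n : ℕ} (i : Fin n → ι) (k : ι) (x : Fin n → ℝ) :
    inner ℝ (e k) (TT e i x) = ∑ j, x j * inner ℝ (e k) (e (i j)) := by
  simp [TT, inner_sum, inner_smul_right]

theorem basis_inner (e : HilbertBasis ι ℝ H) (k m : ι) (g : ι → ℝ) :
    g m * inner ℝ (e k) (e m) = g k * inner ℝ (e k) (e m) := by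
  classical
  by_cases h : k = m
  · rw [h]
  · rw [e.orthonormal.2 h]; simp

theorem lower (hKER : S_KER) (hEXB : S_EXB) (hYID : S_YID) (hST1 : S_ST1) (hEXI : S_EXI)
    (hLIX : S_LIX) (e : HilbertBasis ι ℝ H) (lam : ι → ℝ) (hlam : ∀ i, 0 < lam i) (c K : ℝ)
    (hc : 0 < c) (hadm : Adm e lam c K) {n : ℕ} (i : Fin n → ι)
    (hi : Function.Injective i) (a : Fin n → ℝ) :
    ∫ s in Ioi (0 : ℝ), ‖gv hKER (fun j => lam (i j)) a c s‖ ≤
      K * ‖(WithLp.toLp 2 a : EuclideanSpace ℝ (Fin n))‖ := by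
  have hdec := fun j => hKG hKER hEXB hYID hST1 c (lam (i j)) hc (hlam (i j))
  choose γ C hγ hb using hdec
  obtain ⟨γ', hγ', hγ1⟩ : ∃ γ' : ℝ, 0 < γ' ∧ ∀ j, γ' ≤ γ j := by
    rcases Nat.eq_zero_or_pos n with rfl | hn
    · exact ⟨1, one_pos, fun j => j.elim0⟩
    · have : Nonempty (Fin n) := ⟨⟨0, hn⟩⟩
      obtain ⟨j0, hj0⟩ := Finite.exists_min γ
      exact ⟨γ j0, hγ j0, hj0⟩
  have hC : ∀ j, 0 ≤ C j := by
    intro j
    have := (hb j 0 le_rfl).2
    have h2 := abs_nonneg (kG hKER c (lam (i j)) 0)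
    have h3 : Real.exp (-(γ j * 0)) = 1 := by simp
    rw [h3] at this
    linarith
  set g := gv hKER (fun j => lam (i j)) a c with hg
  have hgc : Continuous g := gv_cont _ _ _ _
  set B := ∑ j, |a j| * C j with hBdef
  have hB0 : 0 ≤ B := Finset.sum_nonneg fun j _ => mul_nonneg (abs_nonneg _) (hC j)
  have hB : ∀ j, |a j| * C j ≤ B := fun j => Finset.single_le_sum (f := fun j => |a j| * C j)
      (fun j _ => mul_nonneg (abs_nonneg _) (hC j)) (Finset.mem_univ j)
  have hgb : ∀ s : ℝ, 0 ≤ s → ‖g s‖ ≤ n * B * Real.exp (-(γ' * s)) := by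
    intro s hs
    have := norm_le_of_coord (g s) (B * Real.exp (-(γ' * s))) (by positivity) ?_
    · linarith [this]
    · intro j
      show |a j * kG hKER c (lam (i j)) s| ≤ _
      rw [abs_mul]
      calc |a j| * |kG hKER c (lam (i j)) s| ≤ |a j| * (C j * Real.exp (-(γ j * s))) :=
            mul_le_mul_of_nonneg_left (hb j s hs).2 (abs_nonneg _)
        _ = |a j| * C j * Real.exp (-(γ j * s)) := by ring
        _ ≤ B * Real.exp (-(γ' * s)) := by
            refine mul_le_mul (hB j) ?_ (Real.exp_pos _).le hB0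
            apply Real.exp_le_exp.2
            have := mul_le_mul_of_nonneg_right (hγ1 j) hs
            linarith
  refine hLIX n g γ' (n * B) _ hγ' hgc hgb ?_
  intro N
  -- the forcing
  have hδ : ∀ x : EuclideanSpace ℝ (Fin n), 0 < ‖x‖ + 1 / ((N : ℝ) + 1) := fun x =>
    add_pos_of_nonneg_of_pos (norm_nonneg _) (by positivity)
  let ff : Fin n → ℝ → ℝ := fun j τ => cut N τ * ((g (-τ)) j / (‖g (-τ)‖ + 1 / ((N : ℝ) + 1)))
  have hcut : Continuous (cut N) := by unfold cut; fun_prop
  have hcut0 : ∀ t, 0 ≤ cut N t := fun t => le_max_left _ _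
  have hcut1 : ∀ t, cut N t ≤ 1 := fun t => max_le zero_le_one (min_le_left _ _)
  have hgn : Continuous fun τ : ℝ => g (-τ) := hgc.comp continuous_neg
  have hff : ∀ j, Continuous (ff j) := by
    intro j
    refine hcut.mul (Continuous.div ?_ (hgn.norm.add continuous_const) fun τ => (hδ _).ne')
    exact (EuclideanSpace.proj (𝕜 := ℝ) j).continuous.comp hgn
  have hff0 : ∀ j t, ((N : ℝ) + 1) ≤ |t| → ff j t = 0 := by
    intro j t ht
    have : cut N t = 0 := by
      unfold cut
      apply max_eq_left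
      exact (min_le_right _ _).trans (by linarith)
    show cut N t * _ = 0
    rw [this, zero_mul]
  choose u w M hu hw hM hw0 using fun j => hEXI c (lam (i j)) _ _ (kK hKER c (lam (i j)))
    ⟨γ j, C j, hγ j, hb j⟩ (ff j) (N + 1) (hff j) (hff0 j)
  have huc : ∀ j, Continuous (u j) := fun j => continuous_iff_continuousAt.2 fun s => (hu j s).continuousAt
  have hwc : ∀ j, Continuous (w j) := fun j => continuous_iff_continuousAt.2 fun s => (hw j s).continuousAt
  have hTc : ∀ y : Fin n → ℝ → ℝ, (∀ j, Continuous (y j)) →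
      Continuous fun t => TT e i fun j => y j t := by
    intro y hy
    unfold TT
    exact continuous_finsetSum _ fun j _ => (hy j).smul continuous_const
  -- bound
  have hfn : ∀ t, ‖TT e i fun j => ff j t‖ ≤ 1 := by
    intro t
    have h1 : (fun j => ff j t) = fun j => (cut N t / (‖g (-t)‖ + 1 / ((N : ℝ) + 1))) * (g (-t)) j := by
      ext j
      show cut N t * ((g (-t)) j / (‖g (-t)‖ + 1 / ((N : ℝ) + 1))) = _
      ring
    rw [TT_norm e i hi, h1]
    have h2 : (WithLp.toLp 2 (fun j => (cut N t / (‖g (-t)‖ + 1 / ((N : ℝ) + 1))) * (g (-t)) j) :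
        EuclideanSpace ℝ (Fin n)) = (cut N t / (‖g (-t)‖ + 1 / ((N : ℝ) + 1))) • g (-t) := by
      ext j; rfl
    rw [h2, norm_smul, Real.norm_eq_abs, abs_of_nonneg (div_nonneg (hcut0 t) (hδ _).le),
      div_mul_eq_mul_div, div_le_one (hδ _)]
    have h3 : cut N t * ‖g (-t)‖ ≤ 1 * ‖g (-t)‖ :=
      mul_le_mul_of_nonneg_right (hcut1 t) (norm_nonneg _)
    have h4 : (0 : ℝ) < 1 / ((N : ℝ) + 1) := by positivity
    linarith
  have hnormTT : ∀ x : Fin n → ℝ, ‖TT e i x‖ ≤ ∑ j, |x j| := by
    intro x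
    refine (norm_sum_le _ _).trans (Finset.sum_le_sum fun j _ => ?_)
    rw [norm_smul, e.orthonormal.1, mul_one, Real.norm_eq_abs]
  have hsol : IsSol e lam c (fun t => TT e i fun j => ff j t) (fun t => TT e i fun j => u j t)
      (fun t => TT e i fun j => w j t) := by
    refine ⟨hTc w hwc, ⟨fun t => TT e i fun j => Real.sqrt (lam (i j)) * u j t,
      (∑ j, Real.sqrt (lam (i j)) * M j) + ∑ j, M j,
      hTc (fun j t => Real.sqrt (lam (i j)) * u j t) fun j => continuous_const.mul (huc j), ?_, ?_⟩, ?_, ?_⟩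
    · intro k t
      rw [TT_coord, TT_coord, Finset.mul_sum]
      refine Finset.sum_congr rfl fun j _ => ?_
      have := basis_inner e k (i j) (fun m => Real.sqrt (lam m))
      calc Real.sqrt (lam (i j)) * u j t * inner ℝ (e k) (e (i j)) =
          u j t * (Real.sqrt (lam (i j)) * inner ℝ (e k) (e (i j))) := by ring
        _ = u j t * (Real.sqrt (lam k) * inner ℝ (e k) (e (i j))) := by rw [this]
        _ = _ := by ring
    · intro t
      have hMn : ∀ j, 0 ≤ M j := fun j => (abs_nonneg _).trans (hM j t).1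
      constructor
      · refine (hnormTT _).trans ?_
        have h1 : ∑ j, |Real.sqrt (lam (i j)) * u j t| ≤ ∑ j, Real.sqrt (lam (i j)) * M j := by
          refine Finset.sum_le_sum fun j _ => ?_
          rw [abs_mul, abs_of_nonneg (Real.sqrt_nonneg _)]
          exact mul_le_mul_of_nonneg_left (hM j t).1 (Real.sqrt_nonneg _)
        have h2 : 0 ≤ ∑ j, M j := Finset.sum_nonneg fun j _ => hMn j
        linarith
      · refine (hnormTT _).trans ?_
        have h1 : ∑ j, |w j t| ≤ ∑ j, M j := Finset.sum_le_sum fun j _ => (hM j t).2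
        have h2 : 0 ≤ ∑ j, Real.sqrt (lam (i j)) * M j :=
          Finset.sum_nonneg fun j _ => mul_nonneg (Real.sqrt_nonneg _) (hMn j)
        linarith
    · intro k s t
      have hd : ∀ t, HasDerivAt (fun t => inner ℝ (e k) (TT e i fun j => u j t))
          (inner ℝ (e k) (TT e i fun j => w j t)) t := by
        intro t
        simp only [TT_coord]
        exact HasDerivAt.fun_sum fun j _ => (hu j t).mul_const _
      exact (intervalIntegral.integral_eq_sub_of_hasDerivAt (fun x _ => hd x)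
        ((continuous_const.inner (hTc w hwc)).intervalIntegrable _ _)).symm
    · intro k s t
      have hd : ∀ t, HasDerivAt (fun t => inner ℝ (e k) (TT e i fun j => w j t))
          (inner ℝ (e k) (TT e i fun j => ff j t) - c * inner ℝ (e k) (TT e i fun j => w j t) -
            lam k * inner ℝ (e k) (TT e i fun j => u j t)) t := by
        intro t
        simp only [TT_coord]
        have h1 : HasDerivAt (fun t => ∑ j, w j t * inner ℝ (e k) (e (i j)))
            (∑ j, (ff j t - c * w j t - lam (i j) * u j t) * inner ℝ (e k) (e (i j))) t :=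
          HasDerivAt.fun_sum fun j _ => (hw j t).mul_const _
        convert h1 using 1
        rw [Finset.mul_sum, Finset.mul_sum, ← Finset.sum_sub_distrib, ← Finset.sum_sub_distrib]
        refine Finset.sum_congr rfl fun j _ => ?_
        have := basis_inner e k (i j) lam
        calc _ = (ff j t - c * w j t) * inner ℝ (e k) (e (i j)) -
            u j t * (lam k * inner ℝ (e k) (e (i j))) := by ring
          _ = (ff j t - c * w j t) * inner ℝ (e k) (e (i j)) -
            u j t * (lam (i j) * inner ℝ (e k) (e (i j))) := by rw [this]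
          _ = _ := by ring
      refine (intervalIntegral.integral_eq_sub_of_hasDerivAt (fun x _ => hd x) ?_).symm
      apply Continuous.intervalIntegrable
      exact ((continuous_const.inner (hTc ff hff)).sub (continuous_const.mul
        (continuous_const.inner (hTc w hwc)))).sub (continuous_const.mul
          (continuous_const.inner (hTc u huc)))
  have hK := hadm _ _ _ 1 (hTc ff hff).aestronglyMeasurable (Eventually.of_forall hfn) hsol 0
  have h5 : ∑ j, a j * w j 0 ≤ K * ‖(WithLp.toLp 2 a : EuclideanSpace ℝ (Fin n))‖ := by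
    rw [← TT_inner e i hi a fun j => w j 0, ← TT_norm e i hi a]
    refine (real_inner_le_norm _ _).trans ?_
    rw [mul_comm]
    exact mul_le_mul_of_nonneg_right (by simpa using hK) (norm_nonneg _)
  refine le_trans (le_of_eq ?_) h5
  -- the integral
  have hint : ∀ j, IntegrableOn (fun s => a j * (kG hKER c (lam (i j)) s * ff j (-s))) (Ioi 0) := by
    intro j
    have hc1 : Continuous fun s : ℝ => a j * (kG hKER c (lam (i j)) s * ff j (-s)) :=
      continuous_const.mul ((kK hKER c (lam (i j))).contG.mul ((hff j).comp continuous_neg))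
    refine intg (γ := γ') (C := B) hγ' hc1 ?_
    intro s hs
    have h6 : |ff j (-s)| ≤ 1 := by
      have := hfn (-s)
      rw [TT_norm e i hi] at this
      exact (PiLp.norm_apply_le (WithLp.toLp 2 (fun j => ff j (-s)) : EuclideanSpace ℝ (Fin n)) j).trans this
    rw [Real.norm_eq_abs, abs_mul, abs_mul]
    calc |a j| * (|kG hKER c (lam (i j)) s| * |ff j (-s)|) ≤
        |a j| * (C j * Real.exp (-(γ j * s)) * 1) := by
          refine mul_le_mul_of_nonneg_left ?_ (abs_nonneg _)
          exact mul_le_mul (hb j s hs).2 h6 (abs_nonneg _) (mul_nonneg (hC j) (Real.exp_pos _).le)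
      _ = |a j| * C j * Real.exp (-(γ j * s)) := by ring
      _ ≤ B * Real.exp (-(γ' * s)) := by
          refine mul_le_mul (hB j) ?_ (Real.exp_pos _).le hB0
          apply Real.exp_le_exp.2
          have := mul_le_mul_of_nonneg_right (hγ1 j) hs
          linarith
  have h7 : ∑ j, a j * w j 0 = ∫ s in Ioi (0 : ℝ), ∑ j, a j * (kG hKER c (lam (i j)) s * ff j (-s)) := by
    rw [integral_finsetSum _ fun j _ => hint j]
    refine Finset.sum_congr rfl fun j _ => ?_
    rw [hw0 j, integral_const_mul]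
  rw [h7]
  refine setIntegral_congr_fun measurableSet_Ioi fun s _ => ?_
  have h8 : ‖g s‖ ^ 2 = ∑ j, (g s) j * (g s) j := by
    rw [EuclideanSpace.norm_sq_eq]
    refine Finset.sum_congr rfl fun j _ => ?_
    rw [Real.norm_eq_abs, sq_abs, sq]
  show cut N (-s) * (‖g s‖ ^ 2 / (‖g s‖ + 1 / ((N : ℝ) + 1))) =
    ∑ j, a j * (kG hKER c (lam (i j)) s * (cut N (-s) * ((g (- -s)) j / (‖g (- -s)‖ + 1 / ((N : ℝ) + 1)))))
  rw [neg_neg, h8, Finset.sum_div, Finset.mul_sum]
  refine Finset.sum_congr rfl fun j _ => ?_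
  have h9 : (g s) j = a j * kG hKER c (lam (i j)) s := rfl
  rw [h9]
  ring

end Pool.Agent.Results.MP_8bcfe8_an.DampingMonotone
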