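import Pool.Agent.X238.DW.B

set_option autoImplicit false

namespace Pool.Agent.Results.MP_8bcfe8_an.DampingMonotone

open MeasureTheory Set Filter Topology
open Pool.Agent.X238.DW

universe u v

variable {ι : Type u} {H : Type v} [NormedAddCommGroup H] [InnerProductSpace ℝ H]

theorem IsSol.shift {e : HilbertBasis ι ℝ H} {lam : ι → ℝ} {c : ℝ} {f u w : ℝ → H}
    (h : IsSol e lam c f u w) (a : ℝ) :
    IsSol e lam c (fun t => f (t + a)) (fun t => u (t + a)) (fun t => w (t + a)) := by
  obtain ⟨U, M, hU, hU1, hU2⟩ := h.energy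
  refine ⟨h.cont_w.comp (continuous_add_right a), ⟨fun t => U (t + a), M,
    hU.comp (continuous_add_right a), fun i t => hU1 i _, fun t => hU2 _⟩, ?_, ?_⟩
  · intro i s t
    rw [h.eq_u i (s + a) (t + a)]
    exact (intervalIntegral.integral_comp_add_right (fun τ => inner ℝ (e i) (w τ)) a).symm
  · intro i s t
    rw [h.eq_w i (s + a) (t + a)]
    exact (intervalIntegral.integral_comp_add_right (fun τ => inner ℝ (e i) (f τ) -
      c * inner ℝ (e i) (w τ) - lam i * inner ℝ (e i) (u τ)) a).symm

theorem IsSol.cont_u {e : HilbertBasis ι ℝ H} {lam : ι → ℝ} (hlam : ∀ i, 0 < lam i) {c : ℝ}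
    {f u w : ℝ → H} (h : IsSol e lam c f u w) (i : ι) :
    Continuous (fun t => inner ℝ (e i) (u t)) ∧ ∃ M : ℝ, ∀ t, |inner ℝ (e i) (u t)| ≤ M := by
  obtain ⟨U, M, hU, hU1, hU2⟩ := h.energy
  have hs : 0 < Real.sqrt (lam i) := Real.sqrt_pos.2 (hlam i)
  have h1 : ∀ t, inner ℝ (e i) (u t) = (Real.sqrt (lam i))⁻¹ * inner ℝ (e i) (U t) := by
    intro t
    rw [hU1, ← mul_assoc, inv_mul_cancel₀ hs.ne', one_mul]
  constructor
  · simp only [h1]
    exact continuous_const.mul (continuous_const.inner hU)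
  · refine ⟨(Real.sqrt (lam i))⁻¹ * M, fun t => ?_⟩
    rw [h1, abs_mul, abs_of_pos (inv_pos.2 hs)]
    refine mul_le_mul_of_nonneg_left ?_ (inv_pos.2 hs).le
    refine (abs_real_inner_le_norm _ _).trans ?_
    rw [e.orthonormal.1, one_mul]
    exact (hU2 t).1

theorem main (hKER : S_KER) (hEXB : S_EXB) (hYID : S_YID) (hST1 : S_ST1) (hST2 : S_ST2)
    (hTEL : S_TEL) (hREP : S_REP) (hEXI : S_EXI) (hLIX : S_LIX)
    (e : HilbertBasis ι ℝ H) (lam : ι → ℝ) (hlam : ∀ i, 0 < lam i) (c1 c2 K : ℝ)
    (hc : 0 < c1) (h12 : c1 ≤ c2) (hK : 0 ≤ K) (hadm : Adm e lam c1 K) : Adm e lam c2 K := by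
  classical
  have hc2 : 0 < c2 := lt_of_lt_of_le hc h12
  intro f0 u0 w0 F hf0 hF0 hsol0 t0
  -- translation
  have hmp := measurePreserving_add_right (volume : Measure ℝ) t0
  have hf : AEStronglyMeasurable (fun t => f0 (t + t0)) volume :=
    hf0.comp_measurePreserving hmp
  have hF : ∀ᵐ t, ‖f0 (t + t0)‖ ≤ F := hmp.quasiMeasurePreserving.ae hF0
  have hsol := hsol0.shift t0
  set f := fun t => f0 (t + t0) with hfd
  set u := fun t => u0 (t + t0) with hud
  set w := fun t => w0 (t + t0) with hwd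
  have hw00 : w0 t0 = w 0 := by simp [hwd]
  rw [hw00]
  have hF00 : 0 ≤ F := by
    obtain ⟨t, ht⟩ := hF.exists
    exact (norm_nonneg _).trans ht
  obtain ⟨U, M, hU, hU1, hU2⟩ := hsol.energy
  -- partial sums
  have key : ∀ (n : ℕ) (i : Fin n → ι), Function.Injective i →
      ∑ j, (inner ℝ (e (i j)) (w 0)) * (inner ℝ (e (i j)) (w 0)) ≤ (K * F) ^ 2 := by
    intro n i hi
    set a : Fin n → ℝ := fun j => inner ℝ (e (i j)) (w 0) with ha
    set g := gv hKER (fun j => lam (i j)) a c2 with hg
    have hdec := fun j => hKG hKER hEXB hYID hST1 c2 (lam (i j)) hc2 (hlam (i j))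
    have hrep : ∀ j, a j = ∫ s in Ioi (0 : ℝ), kG hKER c2 (lam (i j)) s *
        inner ℝ (e (i j)) (f (-s)) := by
      intro j
      obtain ⟨huc, M1, hM1⟩ := hsol.cont_u hlam (i j)
      have hbound : ∀ x : H, |inner ℝ (e (i j)) x| ≤ ‖x‖ := fun x => by
        refine (abs_real_inner_le_norm _ _).trans ?_
        rw [e.orthonormal.1, one_mul]
      refine hREP c2 (lam (i j)) _ _ (kK hKER c2 (lam (i j))) (hdec j)
        (fun t => inner ℝ (e (i j)) (f t)) (fun t => inner ℝ (e (i j)) (u t))
        (fun t => inner ℝ (e (i j)) (w t)) (max F (max M1 M)) ?_ ?_ huc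
        (continuous_const.inner hsol.cont_w) ?_ ?_ (hsol.eq_u (i j)) (hsol.eq_w (i j))
      · exact (innerSL ℝ (e (i j))).continuous.comp_aestronglyMeasurable hf
      · filter_upwards [hF] with t ht
        exact (hbound _).trans (ht.trans (le_max_left _ _))
      · intro t
        exact (hM1 t).trans ((le_max_left _ _).trans (le_max_right _ _))
      · intro t
        exact (hbound _).trans ((hU2 t).2.trans ((le_max_right _ _).trans (le_max_right _ _)))
    -- bounds of g
    choose γ C hγ hb using hdec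
    obtain ⟨γ', hγ', hγ1⟩ : ∃ γ' : ℝ, 0 < γ' ∧ ∀ j, γ' ≤ γ j := by
      rcases Nat.eq_zero_or_pos n with rfl | hn
      · exact ⟨1, one_pos, fun j => j.elim0⟩
      · have : Nonempty (Fin n) := ⟨⟨0, hn⟩⟩
        obtain ⟨j0, hj0⟩ := Finite.exists_min γ
        exact ⟨γ j0, hγ j0, hj0⟩
    have hC : ∀ j, 0 ≤ C j := by
      intro j
      have := (hb j 0 le_rfl).2
      have h2 := abs_nonneg (kG hKER c2 (lam (i j)) 0)
      have h3 : Real.exp (-(γ j * 0)) = 1 := by simp
      rw [h3] at this
      linarith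
    set B := ∑ j, |a j| * C j with hBdef
    have hB0 : 0 ≤ B := Finset.sum_nonneg fun j _ => mul_nonneg (abs_nonneg _) (hC j)
    have hB : ∀ j, |a j| * C j ≤ B := fun j => Finset.single_le_sum (f := fun j => |a j| * C j)
        (fun j _ => mul_nonneg (abs_nonneg _) (hC j)) (Finset.mem_univ j)
    have hgj : ∀ s : ℝ, 0 ≤ s → ∀ j, |a j * kG hKER c2 (lam (i j)) s| ≤ B * Real.exp (-(γ' * s)) := by
      intro s hs j
      rw [abs_mul]
      calc |a j| * |kG hKER c2 (lam (i j)) s| ≤ |a j| * (C j * Real.exp (-(γ j * s))) :=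
            mul_le_mul_of_nonneg_left (hb j s hs).2 (abs_nonneg _)
        _ = |a j| * C j * Real.exp (-(γ j * s)) := by ring
        _ ≤ B * Real.exp (-(γ' * s)) := by
            refine mul_le_mul (hB j) ?_ (Real.exp_pos _).le hB0
            apply Real.exp_le_exp.2
            have := mul_le_mul_of_nonneg_right (hγ1 j) hs
            linarith
    have hgb : ∀ s : ℝ, 0 ≤ s → ‖g s‖ ≤ n * B * Real.exp (-(γ' * s)) := by
      intro s hs
      have := norm_le_of_coord (g s) (B * Real.exp (-(γ' * s))) (by positivity) (hgj s hs)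
      linarith [this]
    have hgi : IntegrableOn (fun s => ‖g s‖) (Ioi 0) := (intg hγ' (gv_cont _ _ _ _) hgb).norm
    have hfm : ∀ j, AEStronglyMeasurable (fun s => inner ℝ (e (i j)) (f (-s))) volume := by
      intro j
      have h1 : AEStronglyMeasurable (fun s => f (-s)) volume :=
        hf.comp_measurePreserving (Measure.measurePreserving_neg volume)
      exact (innerSL ℝ (e (i j))).continuous.comp_aestronglyMeasurable h1
    have hFn : ∀ᵐ s, ‖f (-s)‖ ≤ F :=
      (Measure.measurePreserving_neg (volume : Measure ℝ)).quasiMeasurePreserving.ae hF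
    have hint : ∀ j, IntegrableOn (fun s => a j * (kG hKER c2 (lam (i j)) s *
        inner ℝ (e (i j)) (f (-s)))) (Ioi 0) := by
      intro j
      have h1 : IntegrableOn (fun s : ℝ => B * Real.exp (-(γ' * s)) * F) (Ioi 0) := by
        have := ((exp_neg_integrableOn_Ioi 0 hγ').const_mul B).mul_const F
        simpa [neg_mul, IntegrableOn] using this
      refine Integrable.mono' h1 ?_ ?_
      · exact (continuous_const.aestronglyMeasurable.mul
          ((kK hKER c2 (lam (i j))).contG.aestronglyMeasurable.mul (hfm j))).restrict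
      · filter_upwards [ae_restrict_mem measurableSet_Ioi, ae_restrict_of_ae hFn] with s hs hfs
        rw [← mul_assoc, Real.norm_eq_abs, abs_mul]
        refine mul_le_mul (hgj s (le_of_lt hs) j) ?_ (abs_nonneg _) (by positivity)
        refine (abs_real_inner_le_norm _ _).trans ?_
        rw [e.orthonormal.1, one_mul]
        exact hfs
    have h2 : ∑ j, a j * a j = ∫ s in Ioi (0 : ℝ), ∑ j, a j * (kG hKER c2 (lam (i j)) s *
        inner ℝ (e (i j)) (f (-s))) := by
      rw [integral_finsetSum _ fun j _ => hint j]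
      refine Finset.sum_congr rfl fun j _ => ?_
      rw [integral_const_mul, ← hrep j]
    have h3 : ∀ s, ∑ j, a j * (kG hKER c2 (lam (i j)) s * inner ℝ (e (i j)) (f (-s))) =
        inner ℝ (TT e i fun j => a j * kG hKER c2 (lam (i j)) s) (f (-s)) := by
      intro s
      simp only [TT, sum_inner, real_inner_smul_left]
      exact Finset.sum_congr rfl fun j _ => by ring
    have h4 : ∑ j, a j * a j ≤ (∫ s in Ioi (0 : ℝ), ‖g s‖) * F := by
      rw [h2, ← integral_mul_const]
      refine integral_mono_ae (integrable_finsetSum _ fun j _ => hint j) (hgi.mul_const F) ?_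
      filter_upwards [ae_restrict_of_ae hFn] with s hfs
      rw [h3 s]
      refine (real_inner_le_norm _ _).trans ?_
      rw [TT_norm e i hi]
      exact mul_le_mul_of_nonneg_left hfs (norm_nonneg _)
    have h5 := mono hKER hEXB hYID hST1 hST2 hTEL (fun j => lam (i j)) a (fun j => hlam (i j))
      c1 c2 hc h12
    have h6 := lower hKER hEXB hYID hST1 hEXI hLIX e lam hlam c1 K hc hadm i hi a
    set N := ‖(WithLp.toLp 2 a : EuclideanSpace ℝ (Fin n))‖ with hN
    have h7 : N ^ 2 = ∑ j, a j * a j := by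
      rw [hN, EuclideanSpace.norm_sq_eq]
      refine Finset.sum_congr rfl fun j _ => ?_
      simp [sq]
    have h8 : N ^ 2 ≤ K * N * F := by
      rw [h7]
      exact h4.trans (mul_le_mul_of_nonneg_right (h5.trans h6) hF00)
    have hN0 : 0 ≤ N := norm_nonneg _
    show ∑ j, a j * a j ≤ _
    rw [← h7]
    rcases eq_or_lt_of_le hN0 with h0 | h0
    · rw [← h0]
      simpa using sq_nonneg (K * F)
    · have h9 : N ≤ K * F := by
        by_contra hcon
        push Not at hcon
        nlinarith
      exact pow_le_pow_left₀ hN0 h9 2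
  have h10 : ‖w 0‖ ^ 2 ≤ (K * F) ^ 2 := by
    have h11 := e.hasSum_inner_mul_inner (w 0) (w 0)
    rw [real_inner_self_eq_norm_sq] at h11
    refine hasSum_le_of_sum_le h11 fun S => ?_
    have h12 := key S.card (fun j => (S.equivFin.symm j : ι))
      (Subtype.val_injective.comp S.equivFin.symm.injective)
    refine le_trans (le_of_eq ?_) h12
    rw [← Finset.sum_coe_sort S, ← S.equivFin.symm.sum_comp]
    refine Finset.sum_congr rfl fun j _ => ?_
    rw [real_inner_comm]
  have h13 : 0 ≤ K * F := mul_nonneg hK hF00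
  exact (pow_le_pow_iff_left₀ (norm_nonneg _) h13 two_ne_zero).1 h10

end Pool.Agent.Results.MP_8bcfe8_an.DampingMonotone
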