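import Pool.Agent.X238.DW.Stm2

set_option autoImplicit false

namespace Pool.Agent.Results.MP_8bcfe8_an.VelocityConstantMonotone

open MeasureTheory Set Filter Topology
open Pool.Agent.X238.DW

universe v

variable {H : Type v} [NormedAddCommGroup H] [InnerProductSpace ℝ H]

/-- `u : ℝ → H` is a weak solution on the whole line, bounded, of `u'' + c u' + A u = f`, with velocity
`w = u'`: the second equation is tested with the vectors of the domain of `A` and integrated. -/
structure IsSol (A : H →ₗ.[ℝ] H) (c : ℝ) (f u w : ℝ → H) : Prop where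
  cont_u : Continuous u
  cont_w : Continuous w
  bdd : ∃ M : ℝ, ∀ t, ‖u t‖ ≤ M ∧ ‖w t‖ ≤ M
  eq_u : ∀ s t : ℝ, u t - u s = ∫ τ in s..t, w τ
  eq_w : ∀ (v : A.domain) (s t : ℝ), inner ℝ (w t - w s) (v : H) =
    ∫ τ in s..t, (inner ℝ (f τ) (v : H) - c * inner ℝ (w τ) (v : H) - inner ℝ (u τ) (A v))

/-- `K` is a bound for the velocity: `sup ‖u'‖ ≤ K sup ‖f‖` for all bounded solutions on `ℝ`. -/
def Adm (A : H →ₗ.[ℝ] H) (c K : ℝ) : Prop :=
  ∀ (f u w : ℝ → H) (F : ℝ), AEStronglyMeasurable f volume → (∀ᵐ t, ‖f t‖ ≤ F) →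
    IsSol A c f u w → ∀ t, ‖w t‖ ≤ K * F

/-- `A` is symmetric, `⟪A x, x⟫ ≥ b ‖x‖²`, and there are closed subspaces `V m` of the domain, invariant
under `A`, on which `A` is bounded, with dense union (the ranges of the spectral projections
`1_[b,m](A)`, if `A` is self-adjoint). -/
structure Good (A : H →ₗ.[ℝ] H) (b : ℝ) (V : ℕ → Submodule ℝ H) : Prop where
  symm : ∀ x y : A.domain, inner ℝ (A x) (y : H) = inner ℝ (x : H) (A y)
  coer : ∀ x : A.domain, b * ‖(x : H)‖ ^ 2 ≤ inner ℝ (A x) (x : H)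
  closed : ∀ m, IsClosed (V m : Set H)
  dom : ∀ m, V m ≤ A.domain
  inv : ∀ m (x : A.domain), (x : H) ∈ V m → A x ∈ V m
  bdd : ∀ m, ∃ C : ℝ, ∀ x : A.domain, (x : H) ∈ V m → ‖A x‖ ≤ C * ‖(x : H)‖
  dense : Dense (⋃ m, (V m : Set H))

variable {A : H →ₗ.[ℝ] H} {b : ℝ} {V : ℕ → Submodule ℝ H}

/-- the restriction of `A` to `V m` -/
noncomputable def Am (hT : Good A b V) (m : ℕ) : V m →L[ℝ] V m :=
  LinearMap.mkContinuous
    { toFun := fun x => ⟨A ⟨x, hT.dom m x.2⟩, hT.inv m ⟨x, hT.dom m x.2⟩ x.2⟩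
      map_add' := fun x y => by
        apply Subtype.ext
        have := A.map_add ⟨(x : H), hT.dom m x.2⟩ ⟨(y : H), hT.dom m y.2⟩
        exact this
      map_smul' := fun a x => by
        apply Subtype.ext
        have := A.map_smul a ⟨(x : H), hT.dom m x.2⟩
        exact this }
    (hT.bdd m).choose (fun x => (hT.bdd m).choose_spec ⟨x, hT.dom m x.2⟩ x.2)

theorem Am_coe (hT : Good A b V) (m : ℕ) (x : V m) :
    ((Am hT m x : V m) : H) = A ⟨x, hT.dom m x.2⟩ := rfl

theorem Am_coer (hT : Good A b V) (m : ℕ) : Coer b (Am hT m) where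
  symm x y := by
    rw [Submodule.coe_inner, Submodule.coe_inner, Am_coe, Am_coe]
    exact hT.symm ⟨x, hT.dom m x.2⟩ ⟨y, hT.dom m y.2⟩
  coer x := by
    rw [Submodule.coe_inner, Am_coe]
    exact hT.coer ⟨x, hT.dom m x.2⟩

theorem intg2 {γ C : ℝ} (hγ : 0 < γ) {E : Type*} [NormedAddCommGroup E] {g : ℝ → E}
    (hg : Continuous g) (hb : ∀ s : ℝ, 0 ≤ s → ‖g s‖ ≤ C * Real.exp (-(γ * s))) :
    IntegrableOn g (Ioi 0) := by
  have h1 : IntegrableOn (fun s : ℝ => C * Real.exp (-(γ * s))) (Ioi 0) := by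
    have := (exp_neg_integrableOn_Ioi 0 hγ).const_mul C
    simpa [neg_mul, IntegrableOn] using this
  refine Integrable.mono' h1 hg.aestronglyMeasurable.restrict ?_
  filter_upwards [ae_restrict_mem measurableSet_Ioi] with s hs
  exact hb s (le_of_lt hs)

section kernels

variable {W : Type v} [NormedAddCommGroup W] [InnerProductSpace ℝ W] [CompleteSpace W]

noncomputable def kp (h : S_KER2.{v}) (c : ℝ) (B : W →L[ℝ] W) (x : W) : ℝ → W := (h W c B x).choose
noncomputable def kg (h : S_KER2.{v}) (c : ℝ) (B : W →L[ℝ] W) (x : W) : ℝ → W :=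
  (h W c B x).choose_spec.choose
theorem kk (h : S_KER2.{v}) (c : ℝ) (B : W →L[ℝ] W) (x : W) : KerV c B x (kp h c B x) (kg h c B x) :=
  (h W c B x).choose_spec.choose_spec

theorem kg_cont (h : S_KER2.{v}) (c : ℝ) (B : W →L[ℝ] W) (x : W) : Continuous (kg h c B x) :=
  continuous_iff_continuousAt.2 fun s => ((kk h c B x).dG s).continuousAt

theorem kdec (hKER : S_KER2.{v}) (hEXB : S_EXB2.{v}) (hYID : S_YID2.{v}) (hST1 : S_ST12.{v})
    (c b : ℝ) (hc : 0 < c) (hb : 0 < b) (B : W →L[ℝ] W) (hB : Coer b B) (x : W) :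
    DecV (kp hKER c B x) (kg hKER c B x) := by
  obtain ⟨γ, C, hγ, hC, h⟩ := hST1 hEXB hYID c c b hc le_rfl hb W B hB x
  refine ⟨γ, C, hγ, fun s hs => ?_⟩
  have hk0 : KerV (c + 0) B x (kp hKER c B x) (kg hKER c B x) := by
    rw [add_zero]; exact kk hKER c B x
  have := (h c 0 le_rfl le_rfl (by linarith) _ _ _ _ (kk hKER c B x) hk0).2 s hs
  exact ⟨this.1, this.2.1⟩

/-- monotonicity -/
theorem mono (hKER : S_KER2.{v}) (hEXB : S_EXB2.{v}) (hYID : S_YID2.{v}) (hST1 : S_ST12.{v})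
    (hST2 : S_ST22.{v}) (hTEL : S_TEL) (c1 c2 b : ℝ) (hc : 0 < c1) (h12 : c1 ≤ c2) (hb : 0 < b)
    (B : W →L[ℝ] W) (hB : Coer b B) (x : W) :
    ∫ s in Ioi (0 : ℝ), ‖kg hKER c2 B x s‖ ≤ ∫ s in Ioi (0 : ℝ), ‖kg hKER c1 B x s‖ := by
  obtain ⟨γ, C, hγ, hC, hh⟩ := hST1 hEXB hYID c1 c2 b hc h12 hb W B hB x
  obtain ⟨C', hC'⟩ := hST2 W γ C hγ hC
  refine hTEL (fun c => ∫ s in Ioi (0 : ℝ), ‖kg hKER c B x s‖) c1 c2 C' h12 ?_
  intro c h hc' hh0 hch
  have key := hh c h hc' hh0 hch _ _ _ _ (kk hKER c B x) (kk hKER (c + h) B x)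
  exact hC' c h (lt_of_lt_of_le hc hc') hh0 _ _ (kg_cont _ _ _ _) (kg_cont _ _ _ _) key.1
    (fun s hs => (key.2 s hs).2.1) (fun s hs => (key.2 s hs).2.2)

end kernels

theorem lower [CompleteSpace H] (hKER : S_KER2.{v}) (hEXB : S_EXB2.{v}) (hYID : S_YID2.{v})
    (hST1 : S_ST12.{v}) (hREP : S_REP2.{v}) (hEXI : S_EXI2.{v}) (hLIX : S_LIX2.{v})
    (hb : 0 < b) (hT : Good A b V) (c K : ℝ) (hc : 0 < c) (hadm : Adm A c K) (m : ℕ)
    [CompleteSpace (V m)] (x : V m) :
    ∫ s in Ioi (0 : ℝ), ‖kg hKER c (Am hT m) x s‖ ≤ K * ‖x‖ := by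
  have hB := Am_coer hT m
  set g := kg hKER c (Am hT m) x with hg
  have hgc : Continuous g := kg_cont _ _ _ _
  have hdec := kdec hKER hEXB hYID hST1 c b hc hb (Am hT m) hB x
  obtain ⟨γ, C, hγ, hbd⟩ := hdec
  refine hLIX (V m) g γ C _ hγ hgc (fun s hs => (hbd s hs).2) ?_
  intro N
  have hδ : ∀ y : V m, 0 < ‖y‖ + 1 / ((N : ℝ) + 1) := fun y =>
    add_pos_of_nonneg_of_pos (norm_nonneg _) (by positivity)
  let ff : ℝ → V m := fun τ => (cut N τ / (‖g (-τ)‖ + 1 / ((N : ℝ) + 1))) • g (-τ)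
  have hcut : Continuous (cut N) := by unfold cut; fun_prop
  have hcut0 : ∀ t, 0 ≤ cut N t := fun t => le_max_left _ _
  have hcut1 : ∀ t, cut N t ≤ 1 := fun t => max_le zero_le_one (min_le_left _ _)
  have hgn : Continuous fun τ : ℝ => g (-τ) := hgc.comp continuous_neg
  have hff : Continuous ff :=
    (hcut.div (hgn.norm.add continuous_const) fun τ => (hδ _).ne').smul hgn
  have hff0 : ∀ t, ((N : ℝ) + 1) ≤ |t| → ff t = 0 := by
    intro t ht
    have : cut N t = 0 := by
      unfold cut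
      apply max_eq_left
      exact (min_le_right _ _).trans (by linarith)
    show (cut N t / _) • _ = 0
    rw [this, zero_div, zero_smul]
  have hfn : ∀ t, ‖ff t‖ ≤ 1 := by
    intro t
    show ‖(cut N t / (‖g (-t)‖ + 1 / ((N : ℝ) + 1))) • g (-t)‖ ≤ 1
    rw [norm_smul, Real.norm_eq_abs, abs_of_nonneg (div_nonneg (hcut0 t) (hδ _).le),
      div_mul_eq_mul_div, div_le_one (hδ _)]
    have h3 : cut N t * ‖g (-t)‖ ≤ 1 * ‖g (-t)‖ :=
      mul_le_mul_of_nonneg_right (hcut1 t) (norm_nonneg _)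
    have h4 : (0 : ℝ) < 1 / ((N : ℝ) + 1) := by positivity
    linarith
  obtain ⟨u, w, M, hu, hw, hM⟩ := hEXI hEXB (V m) c b (Am hT m) hc hb hB ff (N + 1) hff hff0
  have huc : Continuous u := continuous_iff_continuousAt.2 fun s => (hu s).continuousAt
  have hwc : Continuous w := continuous_iff_continuousAt.2 fun s => (hw s).continuousAt
  have hAu : Continuous fun t => Am hT m (u t) := (Am hT m).continuous.comp huc
  have hsu : ∀ s t : ℝ, u t - u s = ∫ τ in s..t, w τ := fun s t =>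
    (intervalIntegral.integral_eq_sub_of_hasDerivAt (fun x _ => hu x)
      (hwc.intervalIntegrable _ _)).symm
  have hsw : ∀ s t : ℝ, w t - w s = ∫ τ in s..t, (ff τ - c • w τ - Am hT m (u τ)) := fun s t =>
    (intervalIntegral.integral_eq_sub_of_hasDerivAt (fun x _ => hw x)
      (((hff.sub (hwc.const_smul c)).sub hAu).intervalIntegrable _ _)).symm
  -- the solution in `H`
  have hsol : IsSol A c (fun t => (ff t : H)) (fun t => (u t : H)) (fun t => (w t : H)) := by
    have hcu : Continuous fun t => (u t : H) := continuous_subtype_val.comp huc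
    have hcw : Continuous fun t => (w t : H) := continuous_subtype_val.comp hwc
    have hcf : Continuous fun t => (ff t : H) := continuous_subtype_val.comp hff
    refine ⟨hcu, hcw, ⟨M, hM⟩, ?_, ?_⟩
    · intro s t
      have h1 : ∀ t, HasDerivAt (fun t => (u t : H)) (w t : H) t := fun t =>
        ((V m).subtypeL.hasFDerivAt.comp_hasDerivAt t (hu t))
      exact (intervalIntegral.integral_eq_sub_of_hasDerivAt (fun x _ => h1 x)
        (hcw.intervalIntegrable _ _)).symm
    · intro y s t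
      have h1 : ∀ t, HasDerivAt (fun t => (w t : H)) ((ff t - c • w t - Am hT m (u t) : V m) : H) t :=
        fun t => ((V m).subtypeL.hasFDerivAt.comp_hasDerivAt t (hw t))
      have h2 : ∀ t, HasDerivAt (fun t => inner ℝ (w t : H) (y : H))
          (inner ℝ (ff t : H) (y : H) - c * inner ℝ (w t : H) (y : H) -
            inner ℝ (u t : H) (A y)) t := by
        intro t
        have h3 := (h1 t).inner ℝ (hasDerivAt_const t (y : H))
        refine h3.congr_deriv ?_
        rw [inner_zero_right, zero_add]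
        have h4 : ((ff t - c • w t - Am hT m (u t) : V m) : H) =
            (ff t : H) - c • (w t : H) - A ⟨u t, hT.dom m (u t).2⟩ := rfl
        rw [h4, inner_sub_left, inner_sub_left, real_inner_smul_left,
          hT.symm ⟨u t, hT.dom m (u t).2⟩ y]
      have h5 := intervalIntegral.integral_eq_sub_of_hasDerivAt (a := s) (b := t) (fun x _ => h2 x) ?_
      · rw [inner_sub_left]
        exact h5.symm
      · apply Continuous.intervalIntegrable
        exact ((hcf.inner continuous_const).sub (continuous_const.mul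
          (hcw.inner continuous_const))).sub (hcu.inner continuous_const)
  have hK := hadm _ _ _ 1 (continuous_subtype_val.comp hff).aestronglyMeasurable
    (Eventually.of_forall hfn) hsol 0
  have hrep := hREP (V m) c b (Am hT m) hb hB x _ _ (kk hKER c (Am hT m) x) ⟨γ, C, hγ, hbd⟩ ff u w
    (max 1 M) hff.aestronglyMeasurable (Eventually.of_forall fun t => (hfn t).trans (le_max_left _ _))
    huc hwc (fun t => (hM t).1.trans (le_max_right _ _)) (fun t => (hM t).2.trans (le_max_right _ _))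
    hsu hsw
  have h5 : inner ℝ (w 0) x ≤ K * ‖x‖ := by
    refine (real_inner_le_norm _ _).trans ?_
    exact mul_le_mul_of_nonneg_right (by simpa using hK) (norm_nonneg _)
  refine le_trans (le_of_eq ?_) h5
  rw [hrep]
  refine setIntegral_congr_fun measurableSet_Ioi fun s _ => ?_
  show cut N (-s) * (‖g s‖ ^ 2 / (‖g s‖ + 1 / ((N : ℝ) + 1))) =
    inner ℝ ((cut N (-s) / (‖g (- -s)‖ + 1 / ((N : ℝ) + 1))) • g (- -s)) (g s)
  rw [neg_neg, real_inner_smul_left, real_inner_self_eq_norm_sq]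
  ring

end Pool.Agent.Results.MP_8bcfe8_an.VelocityConstantMonotone
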