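import Pool.Agent.X238.DW.G

set_option autoImplicit false

namespace Pool.Agent.Results.MP_8bcfe8_an.VelocityConstantMonotone

open MeasureTheory Set Filter Topology
open Pool.Agent.X238.DW

universe v

variable {H : Type v} [NormedAddCommGroup H] [InnerProductSpace ℝ H]
variable {A : H →ₗ.[ℝ] H} {b : ℝ} {V : ℕ → Submodule ℝ H}

theorem IsSol.shift {c : ℝ} {f u w : ℝ → H} (h : IsSol A c f u w) (a : ℝ) :
    IsSol A c (fun t => f (t + a)) (fun t => u (t + a)) (fun t => w (t + a)) := by
  obtain ⟨M, hM⟩ := h.bdd
  refine ⟨h.cont_u.comp (continuous_add_right a), h.cont_w.comp (continuous_add_right a),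
    ⟨M, fun t => hM _⟩, ?_, ?_⟩
  · intro s t
    rw [h.eq_u (s + a) (t + a)]
    exact (intervalIntegral.integral_comp_add_right (fun τ => w τ) a).symm
  · intro y s t
    rw [h.eq_w y (s + a) (t + a)]
    exact (intervalIntegral.integral_comp_add_right (fun τ => inner ℝ (f τ) (y : H) -
      c * inner ℝ (w τ) (y : H) - inner ℝ (u τ) (A y)) a).symm

theorem main [CompleteSpace H] (hKER : S_KER2.{v}) (hEXB : S_EXB2.{v}) (hYID : S_YID2.{v})
    (hST1 : S_ST12.{v}) (hST2 : S_ST22.{v}) (hTEL : S_TEL) (hREP : S_REP2.{v}) (hEXI : S_EXI2.{v})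
    (hLIX : S_LIX2.{v}) (hb : 0 < b) (hT : Good A b V) (c1 c2 K : ℝ)
    (hc : 0 < c1) (h12 : c1 ≤ c2) (hK : 0 ≤ K) (hadm : Adm A c1 K) : Adm A c2 K := by
  classical
  have hc2 : 0 < c2 := lt_of_lt_of_le hc h12
  intro f0 u0 w0 F hf0 hF0 hsol0 t0
  -- translation
  have hmp := measurePreserving_add_right (volume : Measure ℝ) t0
  have hf : AEStronglyMeasurable (fun t => f0 (t + t0)) volume :=
    hf0.comp_measurePreserving hmp
  have hF : ∀ᵐ t, ‖f0 (t + t0)‖ ≤ F := hmp.quasiMeasurePreserving.ae hF0
  have hsol := hsol0.shift t0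
  set f := fun t => f0 (t + t0) with hfd
  set u := fun t => u0 (t + t0) with hud
  set w := fun t => w0 (t + t0) with hwd
  have hw00 : w0 t0 = w 0 := by simp [hwd]
  rw [hw00]
  have hF00 : 0 ≤ F := by
    obtain ⟨t, ht⟩ := hF.exists
    exact (norm_nonneg _).trans ht
  obtain ⟨M, hM⟩ := hsol.bdd
  -- the projections
  have key : ∀ m, ∃ y ∈ V m, ‖y‖ ≤ K * F ∧ ∀ v ∈ V m, ‖w 0 - y‖ ≤ 2 * ‖w 0 - v‖ := by
    intro m
    have hcs : CompleteSpace (V m) := (hT.closed m).completeSpace_coe
    have hB := Am_coer hT m
    let P : H →L[ℝ] V m := (V m).orthogonalProjection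
    have hPn : ∀ x, ‖P x‖ ≤ ‖x‖ := fun x => (V m).norm_orthogonalProjection_apply_le x
    have hPi : ∀ (x : H) (y : V m), inner ℝ (P x) y = inner ℝ x (y : H) := fun x y =>
      Submodule.inner_orthogonalProjection_eq_of_mem_right y x
    refine ⟨P (w 0), (P (w 0)).2, ?_, ?_⟩
    · -- the estimate
      set x : V m := P (w 0) with hx
      obtain ⟨γ, C, hγ, hbd⟩ := kdec hKER hEXB hYID hST1 c2 b hc2 hb (Am hT m) hB x
      have hfm : AEStronglyMeasurable (fun t => P (f t)) volume :=
        P.continuous.comp_aestronglyMeasurable hf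
      have hfi : ∀ s t, IntervalIntegrable (fun t => P (f t)) volume s t := by
        intro s t
        rw [intervalIntegrable_iff]
        refine Integrable.mono' (g := fun _ => F) (integrableOn_const (by
          rw [uIoc]; simp)) hfm.restrict ?_
        filter_upwards [ae_restrict_of_ae hF] with τ hτ
        exact (hPn _).trans hτ
      have hrep := hREP (V m) c2 b (Am hT m) hb hB x _ _ (kk hKER c2 (Am hT m) x)
        ⟨γ, C, hγ, hbd⟩ (fun t => P (f t)) (fun t => P (u t)) (fun t => P (w t)) (max F M) hfm
        (by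
          filter_upwards [hF] with t ht
          exact (hPn _).trans (ht.trans (le_max_left _ _)))
        (P.continuous.comp hsol.cont_u) (P.continuous.comp hsol.cont_w)
        (fun t => (hPn _).trans ((hM t).1.trans (le_max_right _ _)))
        (fun t => (hPn _).trans ((hM t).2.trans (le_max_right _ _)))
        (by
          intro s t
          rw [← map_sub, hsol.eq_u s t]
          exact (P.intervalIntegral_comp_comm (hsol.cont_w.intervalIntegrable _ _)).symm)
        (by
          intro s t
          have hAP : Continuous fun τ => Am hT m (P (u τ)) :=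
            (Am hT m).continuous.comp (P.continuous.comp hsol.cont_u)
          have hcP : Continuous fun τ => c2 • P (w τ) :=
            (P.continuous.comp hsol.cont_w).const_smul c2
          have hint : IntervalIntegrable (fun τ => P (f τ) - c2 • P (w τ) - Am hT m (P (u τ)))
              volume s t := ((hfi s t).sub (hcP.intervalIntegrable _ _)).sub
                (hAP.intervalIntegrable _ _)
          refine ext_inner_right ℝ fun y => ?_
          have h1 : inner ℝ (P (w t) - P (w s)) y = inner ℝ (w t - w s) (y : H) := by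
            rw [← map_sub, hPi]
          rw [h1, hsol.eq_w ⟨y, hT.dom m y.2⟩ s t]
          have h2 : inner ℝ (∫ τ in s..t, (P (f τ) - c2 • P (w τ) - Am hT m (P (u τ)))) y =
              ∫ τ in s..t, inner ℝ (P (f τ) - c2 • P (w τ) - Am hT m (P (u τ))) y := by
            have := ContinuousLinearMap.intervalIntegral_comp_comm (innerSL ℝ y) hint
            simp only [innerSL_apply_apply] at this
            rw [real_inner_comm, ← this]
            congr 1
            ext τ
            rw [real_inner_comm]
          rw [h2]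
          congr 1
          ext τ
          rw [inner_sub_left, inner_sub_left, real_inner_smul_left, hPi, hPi,
            (Am_coer hT m).symm, hPi, Am_coe])
      set g := kg hKER c2 (Am hT m) x with hg
      have hgi : IntegrableOn (fun s => ‖g s‖) (Ioi 0) :=
        (intg2 hγ (kg_cont _ _ _ _) fun s hs => (hbd s hs).2).norm
      have hFn : ∀ᵐ s, ‖f (-s)‖ ≤ F :=
        (Measure.measurePreserving_neg (volume : Measure ℝ)).quasiMeasurePreserving.ae hF
      have h4 : ‖x‖ ^ 2 ≤ (∫ s in Ioi (0 : ℝ), ‖g s‖) * F := by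
        rw [← real_inner_self_eq_norm_sq x]
        have h40 : inner ℝ x x = ∫ s in Ioi (0 : ℝ), inner ℝ (P (f (-s))) (g s) := hrep
        rw [h40, ← integral_mul_const]
        have hfn2 : AEStronglyMeasurable (fun s => P (f (-s))) volume :=
          P.continuous.comp_aestronglyMeasurable
            (hf.comp_measurePreserving (Measure.measurePreserving_neg volume))
        have hle : ∀ᵐ s ∂(volume.restrict (Ioi (0 : ℝ))),
            ‖inner ℝ (P (f (-s))) (g s)‖ ≤ ‖g s‖ * F := by
          filter_upwards [ae_restrict_of_ae hFn] with s hfs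
          refine (norm_inner_le_norm _ _).trans ?_
          rw [mul_comm]
          exact mul_le_mul_of_nonneg_left ((hPn _).trans hfs) (norm_nonneg _)
        refine integral_mono_ae ?_ (hgi.mul_const F) ?_
        · refine Integrable.mono' (hgi.mul_const F) ?_ hle
          exact (hfn2.inner (kg_cont _ _ _ _).aestronglyMeasurable).restrict
        · filter_upwards [hle] with s hs
          exact (le_abs_self _).trans hs
      have h5 := mono hKER hEXB hYID hST1 hST2 hTEL c1 c2 b hc h12 hb (Am hT m) hB x
      have h6 := lower hKER hEXB hYID hST1 hREP hEXI hLIX hb hT c1 K hc hadm m x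
      have h8 : ‖x‖ ^ 2 ≤ K * ‖x‖ * F :=
        h4.trans (mul_le_mul_of_nonneg_right (h5.trans h6) hF00)
      have hN0 : 0 ≤ ‖x‖ := norm_nonneg _
      show ‖x‖ ≤ K * F
      rcases eq_or_lt_of_le hN0 with h0 | h0
      · rw [← h0]; exact mul_nonneg hK hF00
      · by_contra hcon
        push Not at hcon
        nlinarith
    · intro y hy
      have h1 : P y = ⟨y, hy⟩ := Submodule.orthogonalProjection_mem_subspace_eq_self (⟨y, hy⟩ : V m)
      have h2 : w 0 - (P (w 0) : H) = (w 0 - y) - (P (w 0 - y) : H) := by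
        rw [map_sub, h1]
        push_cast
        abel
      rw [h2]
      refine (norm_sub_le _ _).trans ?_
      have := hPn (w 0 - y)
      have h3 : ‖((P (w 0 - y) : V m) : H)‖ ≤ ‖w 0 - y‖ := this
      linarith
  refine le_of_forall_pos_le_add fun ε hε => ?_
  obtain ⟨y, hy, hyd⟩ := Metric.dense_iff.1 hT.dense (w 0) (ε / 2) (by positivity)
  obtain ⟨m, hm⟩ := mem_iUnion.1 hyd
  obtain ⟨z, hz, hz1, hz2⟩ := key m
  have h3 := hz2 y hm
  have h4 : ‖w 0 - y‖ < ε / 2 := by
    rw [← dist_eq_norm, dist_comm]; exact hy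
  calc ‖w 0‖ = ‖(w 0 - z) + z‖ := by rw [sub_add_cancel]
    _ ≤ ‖w 0 - z‖ + ‖z‖ := norm_add_le _ _
    _ ≤ K * F + ε := by linarith

end Pool.Agent.Results.MP_8bcfe8_an.VelocityConstantMonotone
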