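import Pool.Agent.X238.DW.Stm3

set_option autoImplicit false

namespace Pool.Agent.X238.DW

open MeasureTheory Set Filter Topology
open Pool.Agent.Results.MP_8bcfe8_an.VelocityConstantMonotone

universe v

variable {H : Type v} [NormedAddCommGroup H] [InnerProductSpace ℝ H] [CompleteSpace H]

theorem kerTT {T B : H →L[ℝ] H} (hcomm : ∀ x, B (T x) = T (B x)) {c : ℝ} {y : H} {p h : ℝ → H}
    (hk : KerV c B y p h) :
    KerV c B (T (T y)) (fun s => T (T (p s))) (fun s => T (T (h s))) where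
  dP s := (T.hasFDerivAt.comp_hasDerivAt s (T.hasFDerivAt.comp_hasDerivAt s (hk.dP s)))
  dG s := by
    have h1 := (T.hasFDerivAt.comp_hasDerivAt s (T.hasFDerivAt.comp_hasDerivAt s (hk.dG s)))
    refine h1.congr_deriv ?_
    rw [map_sub, map_sub, map_neg, map_neg, map_smul, map_smul, hcomm, hcomm]
  P0 := by simp [hk.P0]
  G0 := by simp [hk.G0]

theorem mono3 (c1 c2 b : ℝ) (hc : 0 < c1) (h12 : c1 ≤ c2) (hb : 0 < b)
    (B T : H →L[ℝ] H) (hB : Coer b B) (hcomm : ∀ x, B (T x) = T (B x)) (y : H) :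
    ∫ s in Ioi (0 : ℝ), ‖T (T (kg Pool.Agent.X292.DW.t_KER2 c2 B y s))‖ ≤
      ∫ s in Ioi (0 : ℝ), ‖T (T (kg Pool.Agent.X292.DW.t_KER2 c1 B y s))‖ := by
  obtain ⟨γ, C, hγ, hC, hh⟩ := Pool.Agent.X192.DW.t_ST12 Pool.Agent.X245.DW.t_EXB2
    Pool.Agent.X283.DW.t_YID2 c1 c2 b hc h12 hb H B hB (T (T y))
  obtain ⟨C', hC'⟩ := Pool.Agent.X168.DW.t_ST22 H γ C hγ hC
  refine Pool.Agent.X168.DW.t_TEL
    (fun c => ∫ s in Ioi (0 : ℝ), ‖T (T (kg Pool.Agent.X292.DW.t_KER2 c B y s))‖) c1 c2 C' h12 ?_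
  intro c h hc' hh0 hch
  have key := hh c h hc' hh0 hch _ _ _ _ (kerTT hcomm (kk Pool.Agent.X292.DW.t_KER2 c B y))
    (kerTT hcomm (kk Pool.Agent.X292.DW.t_KER2 (c + h) B y))
  have hct : ∀ c, Continuous fun s => T (T (kg Pool.Agent.X292.DW.t_KER2 c B y s)) := fun c =>
    T.continuous.comp (T.continuous.comp (kg_cont _ _ _ _))
  exact hC' c h (lt_of_lt_of_le hc hc') hh0 _ _ (hct _) (hct _) key.1
    (fun s hs => (key.2 s hs).2.1) (fun s hs => (key.2 s hs).2.2)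

theorem main3 (hYOS : S_YOS.{v}) (hEXI : S_EXI3.{v}) (hCO : S_CO.{v}) (hUPP : S_UPP.{v})
    (hLOW : S_LOW.{v}) (A : H →ₗ.[ℝ] H) (b : ℝ) (T : H →L[ℝ] H) (hb : 0 < b) (hT : Inv A b T)
    (c1 c2 K : ℝ) (hc : 0 < c1) (h12 : c1 ≤ c2) (hK : 0 ≤ K) (hadm : Adm A c1 K) : Adm A c2 K := by
  have hc2 : 0 < c2 := lt_of_lt_of_le hc h12
  intro f0 u0 w0 F hf0 hF0 hsol0 t0
  have hmp := measurePreserving_add_right (volume : Measure ℝ) t0
  have hf : AEStronglyMeasurable (fun t => f0 (t + t0)) volume :=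
    hf0.comp_measurePreserving hmp
  have hF : ∀ᵐ t, ‖f0 (t + t0)‖ ≤ F := hmp.quasiMeasurePreserving.ae hF0
  have hsol := hsol0.shift t0
  set f := fun t => f0 (t + t0) with hfd
  set u := fun t => u0 (t + t0) with hud
  set w := fun t => w0 (t + t0) with hwd
  have hw00 : w0 t0 = w 0 := by simp [hwd]
  rw [hw00]
  have hF00 : 0 ≤ F := by
    obtain ⟨t, ht⟩ := hF.exists
    exact (norm_nonneg _).trans ht
  obtain ⟨b', hb', hB⟩ := hYOS H T b hb hT.symm hT.pos
  have key : ∀ y : H, inner ℝ (w 0) (T (T y)) ≤ K * F * ‖T (T y)‖ := by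
    intro y
    obtain ⟨C, hC⟩ := hUPP H A b T hb hT b' c2 hb' hc2 f u w F hf hF hsol y
    refine le_of_forall_pos_le_add fun η hη => ?_
    obtain ⟨ε0, hε0, hlow⟩ := hLOW hEXI hCO H A b T hb hT b' c1 K hb' hc hK hadm y
      (η / (2 * (F + 1))) (by positivity)
    set ε := min (min ε0 1) (η / (2 * (|C| + 1))) with hε
    have hεpos : 0 < ε := lt_min (lt_min hε0 one_pos) (by positivity)
    have hε1 : ε ≤ ε0 := (min_le_left _ _).trans (min_le_left _ _)
    have hε2 : ε ≤ 1 := (min_le_left _ _).trans (min_le_right _ _)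
    have hε3 : ε ≤ η / (2 * (|C| + 1)) := min_le_right _ _
    obtain ⟨B, hBB⟩ := hB ε hεpos hε2
    have h1 := hC ε B hεpos hε2 hBB _ _ (kk Pool.Agent.X292.DW.t_KER2 c2 B y)
    have h2 := hlow ε B hεpos hε1 hBB _ _ (kk Pool.Agent.X292.DW.t_KER2 c1 B y)
    have h3 := mono3 c1 c2 b' hc h12 hb' B T hBB.coer hBB.comm y
    have h4 : (∫ s in Ioi (0 : ℝ), ‖T (T (kg Pool.Agent.X292.DW.t_KER2 c2 B y s))‖) * F ≤
        (K * ‖T (T y)‖ + η / (2 * (F + 1))) * F :=
      mul_le_mul_of_nonneg_right (h3.trans h2) hF00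
    have h5 : η / (2 * (F + 1)) * F ≤ η / 2 := by
      rw [div_mul_eq_mul_div, div_le_div_iff₀ (by positivity) (by norm_num)]
      nlinarith
    have h6 : C * ε ≤ η / 2 := by
      have h7 : C * ε ≤ |C| * ε := mul_le_mul_of_nonneg_right (le_abs_self C) hεpos.le
      have h8 : |C| * ε ≤ |C| * (η / (2 * (|C| + 1))) :=
        mul_le_mul_of_nonneg_left hε3 (abs_nonneg _)
      have h9 : |C| * (η / (2 * (|C| + 1))) ≤ η / 2 := by
        rw [← mul_div_assoc, div_le_div_iff₀ (by positivity) (by norm_num)]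
        nlinarith [abs_nonneg C]
      linarith
    have h10 := (le_abs_self _).trans h1
    nlinarith [h10, h4, h5, h6]
  have key2 : ∀ z : H, inner ℝ (w 0) z ≤ K * F * ‖z‖ := by
    have hd : DenseRange fun y => T (T y) := hT.dense.comp hT.dense T.continuous
    intro z
    refine hd.induction_on (p := fun z => inner ℝ (w 0) z ≤ K * F * ‖z‖) z ?_ key
    exact isClosed_le (continuous_const.inner continuous_id) (continuous_const.mul continuous_norm)
  have h := key2 (w 0)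
  rw [real_inner_self_eq_norm_sq] at h
  rcases eq_or_lt_of_le (norm_nonneg (w 0)) with h0 | h0
  · rw [← h0]; exact mul_nonneg hK hF00
  · by_contra hcon
    push Not at hcon
    nlinarith

end Pool.Agent.X238.DW
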