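import Pool.Agent.X238.DW.G3

set_option autoImplicit false

namespace Pool.Agent.X238.DW

open MeasureTheory Set Filter Topology
open Pool.Agent.Results.MP_8bcfe8_an.VelocityConstantMonotone

universe v

theorem my_LOW : S_LOW.{v} := by
  intro hEXI hCO H _ _ _ A b T hb hT b' c K hb' hc hK hadm y η hη
  obtain ⟨γ0, hγ0, hE⟩ := Pool.Agent.X245.DW.t_EXB2.{v} c c b' hc le_rfl hb'
  obtain ⟨C1, hC1, hE1⟩ := hE γ0 hγ0 le_rfl
  have dec : ∀ (B : H →L[ℝ] H), Coer b' B → ∀ (z : H) (p h : ℝ → H), KerV c B z p h →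
      ∀ s : ℝ, 0 ≤ s → ‖p s‖ ≤ C1 * ‖z‖ * Real.exp (-(γ0 / 2 * s)) ∧
        ‖h s‖ ≤ C1 * ‖z‖ * Real.exp (-(γ0 / 2 * s)) := by
    intro B hB z p h hk s hs
    have := hE1 H B hB c ⟨le_rfl, le_rfl⟩ p h (fun _ => 0) 0 le_rfl (fun s _ => hk.dP s)
      (fun s _ => by simpa using hk.dG s) hk.P0 (fun s _ => by simp) s hs
    simpa [hk.G0] using this
  have hγ2 : 0 < γ0 / 2 := by positivity
  obtain ⟨n, δ, hδ, hco⟩ := hCO (‖T‖ * (‖T‖ * (C1 * ‖y‖))) (γ0 / 2) (η / 2) hγ2 (by positivity)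
  obtain ⟨C2, hC2, hex⟩ := hEXI c b' (n + 1) hc hb' (by positivity)
  set m := C1 * ‖y‖ / δ with hm
  have hm0 : 0 ≤ m := by positivity
  refine ⟨η / (2 * (K * (C2 * m) * ‖T (T y)‖ + 1)), by positivity, ?_⟩
  intro ε B hε hε0 hY p h hk
  have hd := dec B hY.coer y p h hk
  set g : ℝ → H := fun s => T (T (h s)) with hg
  have hhc : Continuous h := continuous_iff_continuousAt.2 fun s => (hk.dG s).continuousAt
  have hgc : Continuous g := T.continuous.comp (T.continuous.comp hhc)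
  have hgb : ∀ s : ℝ, 0 ≤ s → ‖g s‖ ≤ ‖T‖ * (‖T‖ * (C1 * ‖y‖)) * Real.exp (-(γ0 / 2 * s)) := by
    intro s hs
    calc ‖T (T (h s))‖ ≤ ‖T‖ * ‖T (h s)‖ := T.le_opNorm _
      _ ≤ ‖T‖ * (‖T‖ * ‖h s‖) := mul_le_mul_of_nonneg_left (T.le_opNorm _) (norm_nonneg _)
      _ ≤ ‖T‖ * (‖T‖ * (C1 * ‖y‖ * Real.exp (-(γ0 / 2 * s)))) :=
          mul_le_mul_of_nonneg_left (mul_le_mul_of_nonneg_left (hd s hs).2 (norm_nonneg _))
            (norm_nonneg _)
      _ = _ := by ring
  have h1 := hco H g hgc hgb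
  -- the forcing
  have hδ' : ∀ x : H, 0 < ‖x‖ + δ := fun x => add_pos_of_nonneg_of_pos (norm_nonneg _) hδ
  let φ : ℝ → H := fun τ => (cutL n τ / (‖g (-τ)‖ + δ)) • h (-τ)
  have hcut : Continuous (cutL n) := by unfold cutL; fun_prop
  have hcut0 : ∀ t, 0 ≤ cutL n t := fun t => le_max_left _ _
  have hcut1 : ∀ t, cutL n t ≤ 1 := fun t => max_le zero_le_one (min_le_left _ _)
  have hcutp : ∀ t, 0 ≤ t → cutL n t = 0 := by
    intro t ht
    unfold cutL
    apply max_eq_left
    refine (min_le_right _ _).trans ((min_le_right _ _).trans ?_)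
    have : 0 ≤ ((n : ℝ) + 1) * t := by positivity
    linarith
  have hcutm : ∀ t, t ≤ -((n : ℝ) + 1) → cutL n t = 0 := by
    intro t ht
    unfold cutL
    apply max_eq_left
    refine (min_le_right _ _).trans ((min_le_left _ _).trans ?_)
    linarith
  have hgn : Continuous fun τ : ℝ => g (-τ) := hgc.comp continuous_neg
  have hφc : Continuous φ :=
    (hcut.div (hgn.norm.add continuous_const) fun τ => (hδ' _).ne').smul (hhc.comp continuous_neg)
  have hφ0 : ∀ t, ((n : ℝ) + 1) ≤ |t| → φ t = 0 := by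
    intro t ht
    have : cutL n t = 0 := by
      rcases le_total 0 t with h0 | h0
      · exact hcutp t h0
      · rw [abs_of_nonpos h0] at ht
        exact hcutm t (by linarith)
    show (cutL n t / _) • _ = 0
    rw [this, zero_div, zero_smul]
  have hφm : ∀ t, ‖φ t‖ ≤ m := by
    intro t
    rcases le_total 0 t with h0 | h0
    · show ‖(cutL n t / _) • _‖ ≤ m
      rw [hcutp t h0, zero_div, zero_smul, norm_zero]
      exact hm0
    · show ‖(cutL n t / (‖g (-t)‖ + δ)) • h (-t)‖ ≤ m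
      rw [norm_smul, Real.norm_eq_abs, abs_of_nonneg (div_nonneg (hcut0 t) (hδ' _).le)]
      have h2 : ‖h (-t)‖ ≤ C1 * ‖y‖ := by
        refine (hd (-t) (by linarith)).2.trans ?_
        have : Real.exp (-(γ0 / 2 * -t)) ≤ 1 := by
          rw [Real.exp_le_one_iff]
          nlinarith
        have h3 : 0 ≤ C1 * ‖y‖ := by positivity
        nlinarith
      have h4 : cutL n t / (‖g (-t)‖ + δ) ≤ 1 / δ := by
        apply div_le_div₀ zero_le_one (hcut1 t) hδ
        linarith [norm_nonneg (g (-t))]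
      calc cutL n t / (‖g (-t)‖ + δ) * ‖h (-t)‖ ≤ 1 / δ * (C1 * ‖y‖) :=
            mul_le_mul h4 h2 (norm_nonneg _) (by positivity)
        _ = m := by rw [hm]; ring
  obtain ⟨υ, ω, hυ, hω, hbd⟩ := hex H B hY.coer φ m hφc hφ0 hφm
  have hυc : Continuous υ := continuous_iff_continuousAt.2 fun s => (hυ s).continuousAt
  have hωc : Continuous ω := continuous_iff_continuousAt.2 fun s => (hω s).continuousAt
  have hTT : ∀ z : ℝ → H, Continuous z → Continuous fun s => T (T (z s)) := fun z hz =>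
    T.continuous.comp (T.continuous.comp hz)
  let Ft : ℝ → H := fun τ => T (T (φ τ)) + ε • B (T (υ τ))
  have hFc : Continuous Ft :=
    (hTT φ hφc).add ((B.continuous.comp (T.continuous.comp hυc)).const_smul ε)
  have hFn : ∀ t, ‖Ft t‖ ≤ 1 + ε * (C2 * m) := by
    intro t
    refine (norm_add_le _ _).trans (add_le_add ?_ ?_)
    · have : T (T (φ t)) = (cutL n t / (‖g (-t)‖ + δ)) • g (-t) := by
        show T (T ((cutL n t / (‖g (-t)‖ + δ)) • h (-t))) = _
        rw [map_smul, map_smul]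
      rw [this, norm_smul, Real.norm_eq_abs, abs_of_nonneg (div_nonneg (hcut0 t) (hδ' _).le),
        div_mul_eq_mul_div, div_le_one (hδ' _)]
      have h3 : cutL n t * ‖g (-t)‖ ≤ 1 * ‖g (-t)‖ :=
        mul_le_mul_of_nonneg_right (hcut1 t) (norm_nonneg _)
      linarith
    · rw [norm_smul, Real.norm_eq_abs, abs_of_pos hε]
      exact mul_le_mul_of_nonneg_left ((hY.contr _).trans (hbd t).1) hε.le
  have hTTd : ∀ (z z' : ℝ → H) (t : ℝ), HasDerivAt z (z' t) t →
      HasDerivAt (fun s => T (T (z s))) (T (T (z' t))) t := fun z z' t hz =>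
    (T.hasFDerivAt.comp_hasDerivAt t (T.hasFDerivAt.comp_hasDerivAt t hz))
  have hdu : ∀ t, HasDerivAt (fun s => T (T (υ s))) (T (T (ω t))) t := fun t => hTTd υ ω t (hυ t)
  have hdw : ∀ t, HasDerivAt (fun s => T (T (ω s))) (Ft t - c • T (T (ω t)) - T (υ t)) t := by
    intro t
    refine (hTTd ω (fun t => φ t - c • ω t - B (υ t)) t (hω t)).congr_deriv ?_
    have h5 := hY.left (T (υ t))
    simp only [map_sub, map_smul]
    rw [← hY.comm, ← hY.comm]
    show _ = T (T (φ t)) + ε • B (T (υ t)) - c • T (T (ω t)) - T (υ t)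
    nth_rewrite 3 [← h5]
    abel
  have hsol : IsSol A c Ft (fun t => T (T (υ t))) (fun t => T (T (ω t))) := by
    have hcu := hTT υ hυc
    have hcw := hTT ω hωc
    refine ⟨hcu, hcw, ⟨‖T‖ * (‖T‖ * (C2 * m)), fun t => ⟨?_, ?_⟩⟩, ?_, ?_⟩
    · exact (T.le_opNorm _).trans (mul_le_mul_of_nonneg_left ((T.le_opNorm _).trans
        (mul_le_mul_of_nonneg_left (hbd t).1 (norm_nonneg _))) (norm_nonneg _))
    · exact (T.le_opNorm _).trans (mul_le_mul_of_nonneg_left ((T.le_opNorm _).trans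
        (mul_le_mul_of_nonneg_left (hbd t).2 (norm_nonneg _))) (norm_nonneg _))
    · intro s t
      exact (intervalIntegral.integral_eq_sub_of_hasDerivAt (fun x _ => hdu x)
        (hcw.intervalIntegrable _ _)).symm
    · intro z s t
      have h2 : ∀ t, HasDerivAt (fun t => inner ℝ (T (T (ω t))) (z : H))
          (inner ℝ (Ft t) (z : H) - c * inner ℝ (T (T (ω t))) (z : H) -
            inner ℝ (T (T (υ t))) (A z)) t := by
        intro t
        have h3 := (hdw t).inner ℝ (hasDerivAt_const t (z : H))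
        refine h3.congr_deriv ?_
        rw [inner_zero_right, zero_add, inner_sub_left, inner_sub_left, real_inner_smul_left]
        congr 1
        rw [hT.symm (T (υ t)) (A z), hT.left z]
      have h5 := intervalIntegral.integral_eq_sub_of_hasDerivAt (a := s) (b := t) (fun x _ => h2 x) ?_
      · rw [inner_sub_left]
        exact h5.symm
      · apply Continuous.intervalIntegrable
        exact ((hFc.inner continuous_const).sub (continuous_const.mul
          (hcw.inner continuous_const))).sub (hcu.inner continuous_const)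
  have hK0 := hadm _ _ _ (1 + ε * (C2 * m)) hFc.aestronglyMeasurable (Eventually.of_forall hFn) hsol 0
  have hk4 := kerTT hY.comm (kerTT hY.comm hk)
  have hdec4 : DecV (fun s => T (T (T (T (p s))))) (fun s => T (T (T (T (h s))))) :=
    ⟨γ0 / 2, C1 * ‖T (T (T (T y)))‖, hγ2, fun s hs => dec B hY.coer _ _ _ hk4 s hs⟩
  have hrep := Pool.Agent.X131.DW.t_REP2 H c b' B hb' hY.coer _ _ _ hk4 hdec4 φ υ ω
    (max m (C2 * m)) hφc.aestronglyMeasurable
    (Eventually.of_forall fun t => (hφm t).trans (le_max_left _ _)) hυc hωc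
    (fun t => (hbd t).1.trans (le_max_right _ _)) (fun t => (hbd t).2.trans (le_max_right _ _))
    (fun s t => (intervalIntegral.integral_eq_sub_of_hasDerivAt (fun x _ => hυ x)
      (hωc.intervalIntegrable _ _)).symm)
    (fun s t => (intervalIntegral.integral_eq_sub_of_hasDerivAt (fun x _ => hω x)
      (((hφc.sub (hωc.const_smul c)).sub (B.continuous.comp hυc)).intervalIntegrable _ _)).symm)
  have h6 : inner ℝ (ω 0) (T (T (T (T y)))) = inner ℝ (T (T (ω 0))) (T (T y)) := by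
    rw [hT.symm (T (ω 0)), hT.symm (ω 0)]
  have h7 : ∫ s in Ioi (0 : ℝ), cutL n (-s) * (‖g s‖ ^ 2 / (‖g s‖ + δ)) =
      inner ℝ (T (T (ω 0))) (T (T y)) := by
    rw [← h6, hrep]
    refine setIntegral_congr_fun measurableSet_Ioi fun s _ => ?_
    show cutL n (-s) * (‖g s‖ ^ 2 / (‖g s‖ + δ)) =
      inner ℝ ((cutL n (-s) / (‖g (- -s)‖ + δ)) • h (- -s)) (T (T (T (T (h s)))))
    rw [neg_neg, real_inner_smul_left, ← hT.symm (h s), ← hT.symm (T (h s)),
      real_inner_self_eq_norm_sq]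
    show _ = cutL n (-s) / (‖g s‖ + δ) * ‖g s‖ ^ 2
    ring
  rw [h7] at h1
  have h8 : inner ℝ (T (T (ω 0))) (T (T y)) ≤ K * (1 + ε * (C2 * m)) * ‖T (T y)‖ :=
    (real_inner_le_norm _ _).trans (mul_le_mul_of_nonneg_right hK0 (norm_nonneg _))
  have h9 : ε * (K * (C2 * m) * ‖T (T y)‖) ≤ η / 2 := by
    have hq : 0 ≤ K * (C2 * m) * ‖T (T y)‖ := by positivity
    calc ε * (K * (C2 * m) * ‖T (T y)‖) ≤
        η / (2 * (K * (C2 * m) * ‖T (T y)‖ + 1)) * (K * (C2 * m) * ‖T (T y)‖) :=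
          mul_le_mul_of_nonneg_right hε0 hq
      _ ≤ η / 2 := by
          rw [div_mul_eq_mul_div, div_le_div_iff₀ (by positivity) (by norm_num)]
          nlinarith
  calc ∫ s in Ioi (0 : ℝ), ‖T (T (h s))‖ ≤ K * (1 + ε * (C2 * m)) * ‖T (T y)‖ + η / 2 := by
        linarith [h1, h8]
    _ = K * ‖T (T y)‖ + ε * (K * (C2 * m) * ‖T (T y)‖) + η / 2 := by ring
    _ ≤ K * ‖T (T y)‖ + η := by linarith

end Pool.Agent.X238.DW
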