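import Pool.Agent.X238.DW.Stm3

set_option autoImplicit false

namespace Pool.Agent.X238.DW

open MeasureTheory Set Filter Topology

universe v

theorem my_SA : S_SA.{v} := by
  intro H _ _ _ A b hb hdense hself hcoer
  have hsymm : ∀ x y : A.domain, inner ℝ (A x) (y : H) = inner ℝ (x : H) (A y) := by
    have h1 := LinearPMap.adjoint_isFormalAdjoint hdense
    rw [hself] at h1
    intro x y
    exact h1 x y
  have hlow : ∀ x : A.domain, b * ‖(x : H)‖ ≤ ‖A x‖ := by
    intro x
    have h1 := (hcoer x).trans (real_inner_le_norm _ _)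
    rcases eq_or_lt_of_le (norm_nonneg (x : H)) with h0 | h0
    · rw [← h0, mul_zero]; exact norm_nonneg _
    · have : b * ‖(x : H)‖ * ‖(x : H)‖ ≤ ‖A x‖ * ‖(x : H)‖ := by nlinarith
      exact le_of_mul_le_mul_right this h0
  have hclosed : IsClosed (A.graph : Set (H × H)) := by
    have h1 := LinearPMap.adjoint_isClosed hdense
    rw [hself] at h1
    exact h1
  have hinj : Function.Injective A.toFun := by
    intro x y hxy
    have h1 := hlow (x - y)
    have h2 : A (x - y) = 0 := by
      rw [LinearPMap.map_sub]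
      exact sub_eq_zero.2 hxy
    rw [h2, norm_zero] at h1
    have h3 : ‖((x - y : A.domain) : H)‖ = 0 := by
      have := norm_nonneg ((x - y : A.domain) : H)
      nlinarith
    have h4 : ((x - y : A.domain) : H) = 0 := norm_eq_zero.1 h3
    exact sub_eq_zero.1 (Subtype.ext h4)
  have hrc : IsClosed ((LinearMap.range A.toFun : Submodule ℝ H) : Set H) := by
    refine isClosed_of_closure_subset fun y hy => ?_
    obtain ⟨s, hs, hsy⟩ := mem_closure_iff_seq_limit.1 hy
    choose x hx using hs
    have hcau : CauchySeq fun n => (x n : H) := by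
      have h1 := hsy.cauchySeq
      rw [Metric.cauchySeq_iff] at h1 ⊢
      intro ε hε
      obtain ⟨N, hN⟩ := h1 (b * ε) (by positivity)
      refine ⟨N, fun m hm n hn => ?_⟩
      have h2 := hN m hm n hn
      have h3 := hlow (x m - x n)
      rw [LinearPMap.map_sub] at h3
      have h4 : A (x m) = s m := hx m
      have h5 : A (x n) = s n := hx n
      rw [h4, h5] at h3
      rw [dist_eq_norm] at h2 ⊢
      have h6 : b * ‖(x m : H) - (x n : H)‖ < b * ε := lt_of_le_of_lt h3 h2
      exact lt_of_mul_lt_mul_left h6 hb.le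
    obtain ⟨x0, hx0⟩ := cauchySeq_tendsto_of_complete hcau
    have h7 : Tendsto (fun n => ((x n : H), s n)) atTop (𝓝 (x0, y)) := hx0.prodMk_nhds hsy
    have h8 : (x0, y) ∈ (A.graph : Set (H × H)) := by
      refine hclosed.mem_of_tendsto h7 (Eventually.of_forall fun n => ?_)
      have : A (x n) = s n := hx n
      rw [← this]
      exact A.mem_graph (x n)
    obtain ⟨z, hz1, hz2⟩ := (LinearPMap.mem_graph_iff A).1 h8
    exact ⟨z, hz2⟩
  have hsurj : Function.Surjective A.toFun := by
    rw [← LinearMap.range_eq_top]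
    have : CompleteSpace (LinearMap.range A.toFun : Submodule ℝ H) := hrc.completeSpace_coe
    rw [← Submodule.orthogonal_eq_bot_iff]
    rw [Submodule.eq_bot_iff]
    intro z hz
    have h1 : ∀ x : A.domain, inner ℝ (0 : H) (x : H) = inner ℝ z (A x) := by
      intro x
      rw [inner_zero_left, real_inner_comm]
      exact (hz (A x) ⟨x, rfl⟩).symm
    have h2 : z ∈ A.adjoint.domain := LinearPMap.mem_adjoint_domain_of_exists z ⟨0, h1⟩
    have h3 := LinearPMap.adjoint_apply_eq hdense ⟨z, h2⟩ h1
    have h4 : z ∈ A.domain := by rw [hself] at h2; exact h2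
    have h5 : A ⟨z, h4⟩ = 0 := by
      have h6 : ∀ (A' : H →ₗ.[ℝ] H) (_ : A' = A) (h : z ∈ A'.domain), A' ⟨z, h⟩ = 0 →
          A ⟨z, h4⟩ = 0 := by
        rintro A' rfl h h'
        exact h'
      exact h6 _ hself h2 h3
    have h7 := hlow ⟨z, h4⟩
    rw [h5, norm_zero] at h7
    have h8 : ‖z‖ = 0 := by
      have h9 : b * ‖z‖ ≤ 0 := h7
      have := norm_nonneg z
      nlinarith
    exact norm_eq_zero.1 h8
  let e : A.domain ≃ₗ[ℝ] H := LinearEquiv.ofBijective A.toFun ⟨hinj, hsurj⟩
  have he : ∀ x, A (e.symm x) = x := fun x => e.apply_symm_apply x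
  have he2 : ∀ v : A.domain, e.symm (A v) = v := fun v => e.symm_apply_apply v
  let T : H →L[ℝ] H := LinearMap.mkContinuous (A.domain.subtype ∘ₗ e.symm.toLinearMap) (b⁻¹) (by
    intro x
    have h1 := hlow (e.symm x)
    rw [he] at h1
    show ‖((e.symm x : A.domain) : H)‖ ≤ _
    rw [inv_mul_eq_div, le_div_iff₀ hb, mul_comm]
    exact h1)
  have hTe : ∀ x, T x = ((e.symm x : A.domain) : H) := fun x => rfl
  refine ⟨T, ?_, ?_, ?_, ?_, ?_, ?_⟩
  · intro x
    rw [hTe]
    exact (e.symm x).2
  · intro x h
    exact he x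
  · intro v
    rw [hTe, he2]
  · intro x y
    have := hsymm (e.symm x) (e.symm y)
    rw [he, he] at this
    rw [hTe, hTe]
    exact this.symm
  · intro x
    have := hcoer (e.symm x)
    rw [he] at this
    rw [hTe, real_inner_comm]
    exact this
  · have h1 : Set.range T = (A.domain : Set H) := by
      ext z
      constructor
      · rintro ⟨x, rfl⟩
        exact (e.symm x).2
      · intro hz
        exact ⟨A ⟨z, hz⟩, by rw [hTe, he2]⟩
    show Dense (Set.range T)
    rw [h1]
    exact hdense

end Pool.Agent.X238.DW
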