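import Pool.Agent.X238.DW.G3

set_option autoImplicit false

namespace Pool.Agent.X238.DW

open MeasureTheory Set Filter Topology
open Pool.Agent.Results.MP_8bcfe8_an.VelocityConstantMonotone

universe v

theorem my_UPP : S_UPP.{v} := by
  intro H _ _ _ A b T hb hT b' c hb' hc f u w F hf hF hsol y
  obtain ⟨γ0, hγ0, hE⟩ := Pool.Agent.X245.DW.t_EXB2.{v} c c b' hc le_rfl hb'
  obtain ⟨C1, hC1, hE1⟩ := hE γ0 hγ0 le_rfl
  obtain ⟨M, hM⟩ := hsol.bdd
  have hM0 : 0 ≤ M := (norm_nonneg _).trans (hM 0).1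
  have hF00 : 0 ≤ F := by
    obtain ⟨t, ht⟩ := hF.exists
    exact (norm_nonneg _).trans ht
  have hγ2 : 0 < γ0 / 2 := by positivity
  have hexp : IntegrableOn (fun s : ℝ => C1 * ‖y‖ * Real.exp (-(γ0 / 2 * s))) (Ioi 0) := by
    have := (exp_neg_integrableOn_Ioi 0 hγ2).const_mul (C1 * ‖y‖)
    simpa [neg_mul, IntegrableOn] using this
  refine ⟨M * ∫ s in Ioi (0 : ℝ), C1 * ‖y‖ * Real.exp (-(γ0 / 2 * s)), ?_⟩
  intro ε B hε hε1 hY p h hk
  have hd : ∀ s : ℝ, 0 ≤ s → ‖p s‖ ≤ C1 * ‖y‖ * Real.exp (-(γ0 / 2 * s)) ∧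
      ‖h s‖ ≤ C1 * ‖y‖ * Real.exp (-(γ0 / 2 * s)) := by
    intro s hs
    have := hE1 H B hY.coer c ⟨le_rfl, le_rfl⟩ p h (fun _ => 0) 0 le_rfl (fun s _ => hk.dP s)
      (fun s _ => by simpa using hk.dG s) hk.P0 (fun s _ => by simp) s hs
    simpa [hk.G0] using this
  have hhc : Continuous h := continuous_iff_continuousAt.2 fun s => (hk.dG s).continuousAt
  let TT : H →L[ℝ] H := T.comp T
  have hTTi : ∀ x z : H, inner ℝ (TT x) z = inner ℝ x (TT z) := fun x z => by
    show inner ℝ (T (T x)) z = inner ℝ x (T (T z))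
    rw [hT.symm (T x), hT.symm x]
  have hTTn : ∀ x, ‖TT x‖ ≤ ‖TT‖ * ‖x‖ := fun x => TT.le_opNorm x
  have hBTc : Continuous fun τ => ε • B (T (u τ)) :=
    (B.continuous.comp (T.continuous.comp hsol.cont_u)).const_smul ε
  have hBTn : ∀ τ, ‖ε • B (T (u τ))‖ ≤ ε * M := fun τ => by
    rw [norm_smul, Real.norm_eq_abs, abs_of_pos hε]
    exact mul_le_mul_of_nonneg_left ((hY.contr _).trans (hM τ).1) hε.le
  set Ft : ℝ → H := fun τ => TT (f τ) - ε • B (T (u τ)) with hFt
  have hTf : AEStronglyMeasurable (fun τ => TT (f τ)) volume :=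
    TT.continuous.comp_aestronglyMeasurable hf
  have hFm : AEStronglyMeasurable Ft volume := hTf.sub hBTc.aestronglyMeasurable
  have hFb : ∀ᵐ t, ‖Ft t‖ ≤ ‖TT‖ * F + ε * M := by
    filter_upwards [hF] with t ht
    refine (norm_sub_le _ _).trans (add_le_add ((hTTn _).trans ?_) (hBTn t))
    exact mul_le_mul_of_nonneg_left ht (norm_nonneg _)
  have hFi : ∀ s t, IntervalIntegrable Ft volume s t := by
    intro s t
    rw [intervalIntegrable_iff]
    refine Integrable.mono' (g := fun _ => ‖TT‖ * F + ε * M) (integrableOn_const (by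
      rw [uIoc]; simp)) hFm.restrict ?_
    exact ae_restrict_of_ae hFb
  have hwc : Continuous fun t => TT (w t) := TT.continuous.comp hsol.cont_w
  have huc : Continuous fun t => TT (u t) := TT.continuous.comp hsol.cont_u
  have hrep := Pool.Agent.X131.DW.t_REP2 H c b' B hb' hY.coer y p h hk
    ⟨γ0 / 2, C1 * ‖y‖, hγ2, hd⟩ Ft (fun t => TT (u t)) (fun t => TT (w t))
    (max (‖TT‖ * F + ε * M) (‖TT‖ * M)) hFm
    (by
      filter_upwards [hFb] with t ht
      exact ht.trans (le_max_left _ _)) huc hwc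
    (fun t => ((hTTn _).trans (mul_le_mul_of_nonneg_left (hM t).1 (norm_nonneg _))).trans
      (le_max_right _ _))
    (fun t => ((hTTn _).trans (mul_le_mul_of_nonneg_left (hM t).2 (norm_nonneg _))).trans
      (le_max_right _ _))
    (by
      intro s t
      rw [← map_sub, hsol.eq_u s t]
      exact (TT.intervalIntegral_comp_comm (hsol.cont_w.intervalIntegrable _ _)).symm)
    (by
      intro s t
      have hint : IntervalIntegrable (fun τ => Ft τ - c • TT (w τ) - B (TT (u τ)))
          volume s t := ((hFi s t).sub ((hwc.const_smul c).intervalIntegrable _ _)).sub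
            ((B.continuous.comp huc).intervalIntegrable _ _)
      refine ext_inner_right ℝ fun z => ?_
      have h1 : inner ℝ (TT (w t) - TT (w s)) z = inner ℝ (w t - w s) (TT z) := by
        rw [← map_sub, hTTi]
      rw [h1]
      have h10 := hsol.eq_w ⟨TT z, hT.mem (T z)⟩ s t
      have h11 : A ⟨TT z, hT.mem (T z)⟩ = T z := hT.right (T z) _
      rw [h11] at h10
      refine h10.trans ?_
      have h2 : inner ℝ (∫ τ in s..t, (Ft τ - c • TT (w τ) - B (TT (u τ)))) z =
          ∫ τ in s..t, inner ℝ (Ft τ - c • TT (w τ) - B (TT (u τ))) z := by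
        have := ContinuousLinearMap.intervalIntegral_comp_comm (innerSL ℝ z) hint
        simp only [innerSL_apply_apply] at this
        rw [real_inner_comm, ← this]
        congr 1
        ext τ
        rw [real_inner_comm]
      rw [h2]
      congr 1
      ext τ
      have h12 : Ft τ - c • TT (w τ) - B (TT (u τ)) = TT (f τ) - c • TT (w τ) - T (u τ) := by
        have h13 := hY.left (T (u τ))
        show TT (f τ) - ε • B (T (u τ)) - c • TT (w τ) - B (T (T (u τ))) = _
        nth_rewrite 3 [← h13]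
        abel
      rw [h12, inner_sub_left, inner_sub_left, real_inner_smul_left, hTTi, hTTi, hT.symm])
  have h3 : inner ℝ (w 0) (T (T y)) = ∫ s in Ioi (0 : ℝ), inner ℝ (Ft (-s)) (h s) := by
    rw [← hrep]
    exact (hTTi (w 0) y).symm
  have hFn : ∀ᵐ s, ‖f (-s)‖ ≤ F :=
    (Measure.measurePreserving_neg (volume : Measure ℝ)).quasiMeasurePreserving.ae hF
  have hgi : IntegrableOn (fun s => ‖T (T (h s))‖) (Ioi 0) := by
    refine (intg2 (γ := γ0 / 2) (C := ‖TT‖ * (C1 * ‖y‖)) hγ2 (TT.continuous.comp hhc) ?_).norm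
    intro s hs
    refine (hTTn _).trans ?_
    rw [mul_assoc]
    exact mul_le_mul_of_nonneg_left (hd s hs).2 (norm_nonneg _)
  have hmaj : IntegrableOn (fun s => ‖T (T (h s))‖ * F + M * (C1 * ‖y‖ * Real.exp (-(γ0 / 2 * s))) * ε)
      (Ioi 0) := (hgi.mul_const F).add ((hexp.const_mul M).mul_const ε)
  rw [h3]
  have h4 : |∫ s in Ioi (0 : ℝ), inner ℝ (Ft (-s)) (h s)| ≤
      ∫ s in Ioi (0 : ℝ), (‖T (T (h s))‖ * F + M * (C1 * ‖y‖ * Real.exp (-(γ0 / 2 * s))) * ε) := by
    rw [← Real.norm_eq_abs]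
    refine norm_integral_le_of_norm_le hmaj ?_
    filter_upwards [ae_restrict_of_ae hFn, ae_restrict_mem measurableSet_Ioi] with s hs hs0
    have h5 : inner ℝ (Ft (-s)) (h s) = inner ℝ (f (-s)) (TT (h s)) -
        inner ℝ (ε • B (T (u (-s)))) (h s) := by
      show inner ℝ (TT (f (-s)) - ε • B (T (u (-s)))) (h s) = _
      rw [inner_sub_left, hTTi]
    rw [h5]
    refine (norm_sub_le _ _).trans (add_le_add ?_ ?_)
    · refine (norm_inner_le_norm _ _).trans ?_
      rw [mul_comm]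
      exact mul_le_mul_of_nonneg_left hs (norm_nonneg _)
    · refine (norm_inner_le_norm _ _).trans ?_
      calc ‖ε • B (T (u (-s)))‖ * ‖h s‖ ≤ (ε * M) * (C1 * ‖y‖ * Real.exp (-(γ0 / 2 * s))) :=
            mul_le_mul (hBTn _) (hd s (le_of_lt hs0)).2 (norm_nonneg _) (by positivity)
        _ = _ := by ring
  refine h4.trans (le_of_eq ?_)
  rw [integral_add (hgi.mul_const F) ((hexp.const_mul M).mul_const ε), integral_mul_const,
    integral_mul_const, integral_const_mul]

end Pool.Agent.X238.DW
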