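import Pool.Agent.X238.DW.G3
import Pool.Agent.X238.DW.SA
import Pool.Agent.X238.DW.Low
import Pool.Agent.X238.DW.Upp
import Pool.Agent.X230.DW.EXI3
import Pool.Agent.X226.DWYos
import Pool.Agent.X25.DW.CO

set_option autoImplicit false

/-!
# The optimal velocity constant is nonincreasing in the damping, for every self-adjoint operator
-/

namespace Pool.Agent.X238.DW.SelfAdjointMonotone

open scoped ENNReal
open Pool.Agent.Results.MP_8bcfe8_an.VelocityConstantMonotone (Adm)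

universe v

/-- `K(A,c)`: the smallest constant `K` (a real number `≥ 0`, or `∞` if there is none) with
`sup ‖u'‖ ≤ K sup ‖f‖` for all bounded weak solutions on `ℝ`. -/
noncomputable def Kopt {H : Type v} [NormedAddCommGroup H] [InnerProductSpace ℝ H]
    (A : H →ₗ.[ℝ] H) (c : ℝ) : ℝ≥0∞ :=
  sInf {k : ℝ≥0∞ | ∃ K : ℝ, 0 ≤ K ∧ k = ENNReal.ofReal K ∧ Adm A c K}

/-- Let `A` be self-adjoint with `⟪A x, x⟫ ≥ b ‖x‖²`, `b > 0`. Then `c ↦ K(A,c)` is nonincreasing. -/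
theorem result {H : Type v} [NormedAddCommGroup H] [InnerProductSpace ℝ H] [CompleteSpace H]
    (A : H →ₗ.[ℝ] H) (hself : IsSelfAdjoint A)
    (b : ℝ) (hb : 0 < b) (hcoer : ∀ x : A.domain, b * ‖(x : H)‖ ^ 2 ≤ inner ℝ (A x) (x : H))
    (c1 c2 : ℝ) (hc : 0 < c1) (h12 : c1 ≤ c2) : Kopt A c2 ≤ Kopt A c1 := by
  obtain ⟨T, hT⟩ := Pool.Agent.X238.DW.my_SA H A b hb hself.dense_domain hself hcoer
  refine sInf_le_sInf ?_
  rintro k ⟨K, hK, rfl, hadm⟩
  exact ⟨K, hK, rfl, Pool.Agent.X238.DW.main3 Pool.Agent.X226.DW.t_YOS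
    Pool.Agent.X230.DW.t_EXI3 Pool.Agent.X25.DW.t_CO Pool.Agent.X238.DW.my_UPP
    Pool.Agent.X238.DW.my_LOW
    A b T hb hT c1 c2 K hc h12 hK hadm⟩

end Pool.Agent.X238.DW.SelfAdjointMonotone
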